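import Pool.Agent.V8H57.CX.Fin

/-! Almost all oracles. -/

set_option autoImplicit false

namespace Pool.Agent.V8H57.CX

open Filter MeasureTheory Pool.Agent.NPC Pool.Agent.H620R2.Gauge

instance CAlg.countable : Countable CAlg := by
  have h1 : Countable {D : List Bool → List Bool | PolyTime D} := countable_polyTime.to_subtype
  have h2 : Countable (Polynomial ℕ) := by
    have : Function.Injective (fun p : Polynomial ℕ => (p.toFinsupp.coeff : ℕ →₀ ℕ)) := by
      intro p q h
      ext n
      exact DFunLike.congr_fun h n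
    exact this.countable
  let F : CAlg → {D : List Bool → List Bool | PolyTime D} × Polynomial ℕ :=
    fun M => (⟨M.D, M.poly⟩, M.p)
  have hF : Function.Injective F := by
    intro M N h
    obtain ⟨D, hD, p⟩ := M
    obtain ⟨D', hD', p'⟩ := N
    simp only [F, Prod.mk.injEq, Subtype.mk.injEq] at h
    obtain ⟨rfl, rfl⟩ := h
    rfl
  exact hF.countable

theorem countable_polynomial : Countable (Polynomial ℕ) := by
  have : Function.Injective (fun p : Polynomial ℕ => (p.toFinsupp.coeff : ℕ →₀ ℕ)) := by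
    intro p q h
    ext n
    exact DFunLike.congr_fun h n
  exact this.countable

theorem poly_ev (P : Polynomial ℕ) : ∀ᶠ u : ℕ in atTop, P.eval u ≤ 2 ^ u := by
  filter_upwards [Y_exp (P.eval 1) 1 P.natDegree, eventually_ge_atTop 1] with u h1 h2
  have h3 := Y_poly_le P u h2
  have h4 : P.eval 1 * u ^ P.natDegree ≤ P.eval 1 * (1 * (u + 1)) ^ P.natDegree :=
    Nat.mul_le_mul_left _ (Nat.pow_le_pow_left (by omega) _)
  omega

theorem bad_null (i : ℕ) (M : CAlg) (M' : Alg) (p : Polynomial ℕ) :
    ranO (Bad i M M' p) = 0 := by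
  obtain ⟨P, hP⟩ := bad_le i M M' p
  have hlim : Tendsto (fun u : ℕ => ENNReal.ofReal (4 * (1 / 2) ^ u)) atTop (nhds 0) := by
    rw [← ENNReal.ofReal_zero]
    apply ENNReal.tendsto_ofReal
    have := (tendsto_pow_atTop_nhds_zero_of_lt_one (r := (1 / 2 : ℝ)) (by norm_num)
      (by norm_num)).const_mul 4
    simpa using this
  refine le_antisymm (ge_of_tendsto hlim ?_) bot_le
  filter_upwards [poly_ev P, eventually_ge_atTop 1] with u h1 h2
  exact hP u h2 h1

/-- For almost all oracles and all levels there is a hard optimization problem. -/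
theorem all_hard : ∀ᵐ A ∂ranO, ∀ i : ℕ, ∃ C : ℕ → ℕ → Prop, IsOptProblem A i C id ∧
    ∀ S : Set (List Bool), InSigma A i S → ∀ M : CAlg, ¬ M.Computes S C id := by
  have := countable_polynomial
  have h : ∀ᵐ A ∂ranO, ∀ (i : ℕ) (M : CAlg) (M' : Alg) (p : Polynomial ℕ), A ∉ Bad i M M' p := by
    rw [ae_all_iff]
    intro i
    rw [ae_all_iff]
    intro M
    rw [ae_all_iff]
    intro M'
    rw [ae_all_iff]
    intro p
    exact measure_eq_zero_iff_ae_notMem.1 (bad_null i M M' p)
  filter_upwards [h] with A hA i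
  refine ⟨Cr (cc i) i A, isOpt_Cr (cc i) i (by unfold cc; omega) A, ?_⟩
  rintro S ⟨V, p, ⟨M', hM'⟩, hS⟩ M hcomp
  apply hA i M M' p
  refine ⟨V, hM', ?_⟩
  have h1 : S = {q | Quant (p.eval q.length) V i true q} := Set.ext hS
  rw [← h1]
  exact hcomp

end Pool.Agent.V8H57.CX
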