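import Pool.Agent.H620R2.Gauge.Defs

/-!
# Optimization problems and counterexample computations, relative to an oracle

The natural numbers are written in binary (`Nat.bits`, lowest digit first).
-/

set_option autoImplicit false

namespace Pool.Agent.V8H57.CX

open Pool.Agent.NPC Pool.Agent.H620R2.Gauge

/-- The language `L` is in the level `Σ_k` of the polynomial hierarchy relative to `A`:
membership is given by `k` alternating quantifiers over the bit strings of length at most
`p |x|`, the first one existential, in front of a property `V y = [true]` with `V` computable in
polynomial time relative to `A`. For `k = 0` this is `P` relative to `A`. -/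
def InSigma (A : Oracle) (k : ℕ) (L : Set (List Bool)) : Prop :=
  ∃ (V : List Bool → List Bool) (p : Polynomial ℕ), IsFP A V ∧
    ∀ x, x ∈ L ↔ Quant (p.eval x.length) V k true x

/-- The relation `C` between natural numbers is in the level `Π_k` of the polynomial hierarchy
relative to `A`: the same for the code of the pair `x, y`, with a universal first quantifier. -/
def InPi (A : Oracle) (k : ℕ) (C : ℕ → ℕ → Prop) : Prop :=
  ∃ (V : List Bool → List Bool) (p : Polynomial ℕ), IsFP A V ∧
    ∀ x y, C x y ↔ Quant (p.eval (pairBits x.bits y.bits).length) V k false
      (pairBits x.bits y.bits)

/-- `(C, ρ)` is an optimization problem with `C` in `Π_i` relative to `A`. (The function `ρ` is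
even computable in polynomial time without the oracle.) -/
structure IsOptProblem (A : Oracle) (i : ℕ) (C : ℕ → ℕ → Prop) (ρ : ℕ → ℕ) : Prop where
  pi : InPi A i C
  zero : ∀ x, C x 0
  le : ∀ x y, C x y → y ≤ x
  rho : ∃ f : List Bool → List Bool, PolyTime f ∧ ∀ y, f y.bits = (ρ y).bits

/-- The matrix of the definition of optimality. -/
def Bm (C : ℕ → ℕ → Prop) (ρ : ℕ → ℕ) (x y z : ℕ) : Prop := C x y ∧ (ρ y < ρ z → ¬ C x z)

/-- `y` is an optimal solution of the instance `x`. -/
def Opt (C : ℕ → ℕ → Prop) (ρ : ℕ → ℕ) (x y : ℕ) : Prop := ∀ z ≤ x, Bm C ρ x y z

/-- A strategy of the adversary: the answer to the presented number `y`, which may depend on the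
history `a` of the computation; `none` means: the number `y` is optimal, and `some z` means: it is
not, as the number `z` shows. -/
abbrev Adversary : Type := List Bool → ℕ → Option ℕ

/-- All answers of the adversary are correct for the instance `x`. -/
def Adversary.Correct (C : ℕ → ℕ → Prop) (ρ : ℕ → ℕ) (x : ℕ) (adv : Adversary) : Prop :=
  ∀ a y, match adv a y with
    | none => Opt C ρ x y
    | some z => z ≤ x ∧ ¬ Bm C ρ x y z

/-- The number with the binary digits `w`, the lowest digit first. -/
def num (w : List Bool) : ℕ := w.foldr (fun b n => Nat.bit b n) 0

/-- The string given to the machine for an answer of the adversary. -/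
def ansCode : Option ℕ → List Bool
  | none => []
  | some z => true :: z.bits

/-- A polynomial-time machine with two kinds of questions. On input `x`, and if `a` is the string
coding the answers received so far, `D ⟨x, a⟩` tells what comes next: `false :: q` means that the
machine asks whether the string `q` is in the oracle set; `true :: false :: w` means that it
presents the number `num w` to the adversary and asks whether it is optimal; `true :: true :: w`
means that it stops with output `num w` (and it stops with output `0` in the remaining cases). The
function `D` is computable in polynomial time and the number of rounds is bounded by the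
polynomial `p` in the length of the input. -/
structure CAlg : Type where
  /-- the next action, as a function of the input and of the answers received so far -/
  D : List Bool → List Bool
  /-- it is computable in polynomial time -/
  poly : PolyTime D
  /-- the bound for the number of rounds -/
  p : Polynomial ℕ

open Classical in
/-- The output of the machine on input `x`, with the oracle set `S` and the adversary `adv`, within
`n` further rounds, when `a` is the code of the answers received so far (the newest answer comes
first); `none` if it does not stop. -/
noncomputable def CAlg.run (M : CAlg) (S : Set (List Bool)) (adv : Adversary) (x : ℕ) :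
    ℕ → List Bool → Option ℕ
  | 0, _ => none
  | n + 1, a =>
    match M.D (pairBits x.bits a) with
    | false :: q => M.run S adv x n (pairBits [decide (q ∈ S)] a)
    | true :: false :: w => M.run S adv x n (pairBits (ansCode (adv a (num w))) a)
    | true :: true :: w => some (num w)
    | _ => some 0

/-- The counterexample computation `M` with the oracle set `S` computes `(C, ρ)`: for every input
`x` and every strategy of the adversary with correct answers it outputs an optimal solution. -/
def CAlg.Computes (M : CAlg) (S : Set (List Bool)) (C : ℕ → ℕ → Prop) (ρ : ℕ → ℕ) : Prop :=
  ∀ (x : ℕ) (adv : Adversary), adv.Correct C ρ x →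
    ∃ y, M.run S adv x (M.p.eval x.bits.length) [] = some y ∧ Opt C ρ x y

end Pool.Agent.V8H57.CX
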