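import Pool.Agent.V8H57.CX.Root

/-! The error is small. -/

set_option autoImplicit false

namespace Pool.Agent.V8H57.CX

theorem err_le {i u steps ℓ mm : ℕ} (hu : 1 ≤ u)
    (h : i + ℓ + (ℓ + i * (2 * mm + 1) + 2) + u + steps ≤ 2 ^ u) :
    err i (8 * u) u steps ℓ mm ≤ 4 * (1 / 2) ^ u := by
  unfold err
  set L : ℕ := ℓ + i * (2 * mm + 1) + 2 with hL
  have hu2 : u ≤ 2 ^ u := (Nat.lt_two_pow_self).le
  have h22 : (2 : ℕ) ^ u ≤ 2 ^ (2 * u) := Nat.pow_le_pow_right (by norm_num) (by omega)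
  -- the first term
  have t1 : (i : ℝ) * ((ℓ + 1) * (2 ^ L * (1 / 2) ^ (2 ^ (2 * u) + 1))) ≤ (1 / 2) ^ u := by
    have a1 : (i : ℝ) ≤ 2 ^ i := by exact_mod_cast (Nat.lt_two_pow_self (n := i)).le
    have a2 : ((ℓ : ℝ) + 1) ≤ 2 ^ ℓ := by exact_mod_cast Nat.succ_le_of_lt (Nat.lt_two_pow_self)
    have a3 : i + ℓ + L + u ≤ 2 ^ (2 * u) + 1 := by omega
    calc (i : ℝ) * ((ℓ + 1) * (2 ^ L * (1 / 2) ^ (2 ^ (2 * u) + 1)))
        ≤ 2 ^ i * (2 ^ ℓ * (2 ^ L * (1 / 2) ^ (i + ℓ + L + u))) := by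
          gcongr ?_ * (?_ * (2 ^ L * ?_))
          exact pow_le_pow_of_le_one (by norm_num) (by norm_num) a3
      _ = (2 * (1 / 2)) ^ i * (2 * (1 / 2)) ^ ℓ * (2 * (1 / 2)) ^ L * (1 / 2) ^ u := by
          rw [mul_pow, mul_pow, mul_pow, pow_add, pow_add, pow_add]
          ring
      _ = (1 / 2) ^ u := by norm_num
  -- the second term
  have t2 : ((steps : ℝ) * ((2 ^ (2 * u) : ℕ) + 1) + 1) * (1 / 2 ^ (4 * (8 * u))) ≤
      (1 / 2) ^ u := by
    have b1 : (steps * (2 ^ (2 * u) + 1) + 1) * 2 ^ u ≤ 2 ^ (4 * (8 * u)) := by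
      have c1 : steps ≤ 2 ^ u := by omega
      have c2 : 1 ≤ 2 ^ u := Nat.one_le_two_pow
      have c3 : 1 ≤ 2 ^ (2 * u) := Nat.one_le_two_pow
      calc (steps * (2 ^ (2 * u) + 1) + 1) * 2 ^ u
          ≤ (2 ^ u * (2 ^ (2 * u) + 2 ^ (2 * u)) + 2 ^ u * 2 ^ (2 * u)) * 2 ^ u := by
            gcongr
            nlinarith
        _ = 3 * (2 ^ u * 2 ^ (2 * u) * 2 ^ u) := by ring
        _ ≤ 4 * (2 ^ u * 2 ^ (2 * u) * 2 ^ u) := by omega
        _ = 2 ^ (4 * u + 2) := by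
            rw [← pow_add, ← pow_add, show (4 : ℕ) = 2 ^ 2 by norm_num, ← pow_add]
            congr 1
            ring
        _ ≤ 2 ^ (4 * (8 * u)) := Nat.pow_le_pow_right (by norm_num) (by omega)
    have b2 : ((steps : ℝ) * ((2 ^ (2 * u) : ℕ) + 1) + 1) * 2 ^ u ≤ 2 ^ (4 * (8 * u)) := by
      exact_mod_cast b1
    rw [mul_one_div, div_le_iff₀ (by positivity), one_div_pow, one_div, ← div_eq_inv_mul,
      le_div_iff₀ (by positivity)]
    exact b2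
  -- the third term
  have t3 : (4 : ℝ) / 2 ^ (8 * u) ≤ (1 / 2) ^ u := by
    rw [div_le_iff₀ (by positivity), one_div_pow, one_div, ← div_eq_inv_mul,
      le_div_iff₀ (by positivity)]
    calc (4 : ℝ) * 2 ^ u = 2 ^ (u + 2) := by rw [pow_add]; ring
      _ ≤ 2 ^ (8 * u) := pow_le_pow_right₀ (by norm_num) (by omega)
  -- the fourth term
  have t4 : (2 : ℝ) ^ steps * Real.exp (-((2 ^ (8 * u) - 1) / 2)) ≤ (1 / 2) ^ u := by
    have d1 : 2 * (steps + u) + 1 ≤ 2 ^ (8 * u) := by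
      have e1 : 2 * (steps + u) + 1 ≤ 2 * 2 ^ u + 1 := by omega
      have e2 : 1 ≤ 2 ^ u := Nat.one_le_two_pow
      have e3 : 2 ^ (u + 2) ≤ 2 ^ (8 * u) := Nat.pow_le_pow_right (by norm_num) (by omega)
      have e4 : 2 ^ (u + 2) = 4 * 2 ^ u := by rw [pow_add]; ring
      omega
    have d2 : (2 : ℝ) * (steps + u) + 1 ≤ 2 ^ (8 * u) := by exact_mod_cast d1
    have d3 : Real.exp (-((2 ^ (8 * u) - 1) / 2)) ≤ (1 / 2) ^ (steps + u) := by
      have f1 : Real.exp (-1) ≤ 1 / 2 := by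
        rw [Real.exp_neg, inv_eq_one_div]
        apply one_div_le_one_div_of_le (by norm_num)
        have := Real.add_one_le_exp (1 : ℝ)
        linarith
      calc Real.exp (-((2 ^ (8 * u) - 1) / 2)) ≤ Real.exp (((steps + u : ℕ) : ℝ) * (-1)) := by
            apply Real.exp_le_exp.mpr
            push_cast
            linarith
        _ = (Real.exp (-1)) ^ (steps + u) := by rw [Real.exp_nat_mul]
        _ ≤ (1 / 2) ^ (steps + u) := pow_le_pow_left₀ (Real.exp_pos _).le f1 _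
    calc (2 : ℝ) ^ steps * Real.exp (-((2 ^ (8 * u) - 1) / 2))
        ≤ 2 ^ steps * (1 / 2) ^ (steps + u) := mul_le_mul_of_nonneg_left d3 (by positivity)
      _ = (2 * (1 / 2)) ^ steps * (1 / 2) ^ u := by rw [mul_pow, pow_add]; ring
      _ = (1 / 2) ^ u := by norm_num
  linarith

end Pool.Agent.V8H57.CX
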