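import Pool.Agent.V8H57.CX.Link
import Pool.Agent.V8H57.CX.Err
import Pool.Agent.H620R2.Gauge.Y

/-! The probability that a fixed computation with a fixed set solves the hard problem. -/

set_option autoImplicit false

namespace Pool.Agent.V8H57.CX

open Finset H568R2 Pool.Agent.H676 Pool.Agent.H620R2.Gauge Pool.Agent.NPC
  Pool.Agent.H591R3 Pool.Agent.H591R3.PHG Pool.Agent.H622R2 MeasureTheory

/-- the factor of the lengths -/
def cc (i : ℕ) : ℕ := 200 * (i + 1)

/-- the strings for the roots -/
def xs {N : ℕ} (as : List ℕ) (w : ℕ) (bx pad : List Bool) (j : Fin N) : List Bool :=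
  enc as w (pad ++ LangSig.fit bx (j.val + 1).bits)

theorem xs_eq {N : ℕ} {as : List ℕ} {w : ℕ} {bx pad : List Bool} (hx : bx = enc as w pad)
    (j : Fin N) : xs as w bx pad j = bx ++ LangSig.fit bx (j.val + 1).bits := by
  unfold xs
  rw [← enc_append_right, ← hx]

theorem size_le_of {ar j : ℕ} (h : j < 2 ^ ar - 1) : (j + 1).bits.length ≤ ar := by
  rw [Nat.size_eq_bits_len, Nat.size_le]
  omega

theorem xs_inj {ar : ℕ} {as : List ℕ} {w : ℕ} {bx pad : List Bool} (h : ar ≤ bx.length) :
    Function.Injective (xs (N := 2 ^ ar - 1) as w bx pad) := by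
  intro j j' hj
  have h1 := enc_inj as w hj
  have h2 := List.append_cancel_left h1
  have h3 := fit_inj ((size_le_of j.isLt).trans h) ((size_le_of j'.isLt).trans h) h2
  rw [num_bits, num_bits] at h3
  exact Fin.ext (by omega)

theorem length_xs {N : ℕ} {as : List ℕ} {w : ℕ} {bx pad : List Bool} (hx : bx = enc as w pad)
    (j : Fin N) : (xs as w bx pad j).length = 2 * bx.length := by
  rw [xs_eq hx, List.length_append, LangSig.length_fit]
  ring

theorem feas_cr {c i w ar x : ℕ} {A : Oracle} {as : List ℕ} (hlen : as.length = i)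
    {pad : List Bool} (hx : x.bits = enc as w pad) (hX : x.bits.length = c * ar) (hc : 1 ≤ c)
    (y : ℕ) : Cr c i A x y ↔ feas (N := 2 ^ ar - 1)
      (Tr (w :: pw as) (leaves (xs as w x.bits pad) as w A)) y := by
  by_cases h00 : y = 0
  · exact ⟨fun _ => Or.inl h00, fun _ => Or.inl h00⟩
  unfold Cr feas
  refine or_congr Iff.rfl ?_
  have hv : ∀ j : Fin (2 ^ ar - 1), Tr (w :: pw as) (leaves (xs as w x.bits pad) as w A) j =
      valA i A (x.bits ++ LangSig.fit x.bits (j.val + 1).bits) := by
    intro j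
    have h1 := valA_enc A as w (fun j : Fin (2 ^ ar - 1) => pad ++ LangSig.fit x.bits (j.val + 1).bits) j
    rw [← hlen, ← xs_eq hx j]
    exact h1.symm
  have hs : ∀ y : ℕ, c * y.bits.length ≤ x.bits.length ↔ y < 2 ^ ar := by
    intro y
    rw [hX, Nat.size_eq_bits_len, ← Nat.size_le]
    constructor
    · intro h
      exact Nat.le_of_mul_le_mul_left h hc
    · intro h
      exact Nat.mul_le_mul_left c h
  rw [hs y]
  constructor
  · rintro ⟨h1, h2⟩
    have h0 : 1 ≤ y := by omega
    refine ⟨⟨y - 1, by omega⟩, by simp only; omega, ?_⟩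
    rw [hv]
    simp only
    rw [Nat.sub_add_cancel h0]
    exact h2
  · rintro ⟨j, rfl, hj⟩
    rw [hv] at hj
    exact ⟨by have := j.isLt; omega, hj⟩

/-- the instance -/
theorem exists_inst {i n ar : ℕ} (hn : 1 ≤ n) (as : List ℕ) (hlen : as.length = i)
    (has : ∀ a ∈ as, a ≤ 64 * n) (har : n ≤ ar) : ∃ (x : ℕ) (pad : List Bool),
      x.bits = enc as (8 * n) pad ∧ x.bits.length = cc i * ar := by
  have hsum : as.sum ≤ i * (64 * n) := by
    have := List.sum_le_card_nsmul as (64 * n) has
    rw [hlen, smul_eq_mul] at this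
    exact this
  have hbase : 2 * as.sum + i + 2 * (8 * n) + 1 + 1 ≤ cc i * ar := by
    unfold cc
    have h1 : 200 * (i + 1) * n ≤ 200 * (i + 1) * ar := Nat.mul_le_mul_left _ har
    nlinarith
  set k : ℕ := cc i * ar - (2 * as.sum + i + 2 * (8 * n) + 1 + 1) with hk
  have h1 : enc as (8 * n) (List.replicate k true ++ [true]) =
      enc as (8 * n) (List.replicate k true) ++ [true] := (enc_append_right _ _ _ _).symm
  refine ⟨num (enc as (8 * n) (List.replicate k true ++ [true])),
    List.replicate k true ++ [true], ?_, ?_⟩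
  · rw [h1]
    exact (bits_num _).1
  · rw [h1, (bits_num _).1, List.length_append, enc_len, hlen, List.length_replicate,
      List.length_singleton]
    omega

theorem ansCode_len {N x : ℕ} {v : Fin N → Bool} {C : ℕ → ℕ → Prop} (h : ∀ y, C x y ↔ feas v y)
    (hle : ∀ y, C x y → y ≤ x) (y : ℕ) : (ansCode (ans v y)).length ≤ x.bits.length + 1 := by
  have h1 := ans_correct h hle [] y
  rcases h2 : ans v y with _ | z
  · simp [ansCode]
  · simp only [h2] at h1
    simp only [ansCode, List.length_cons]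
    have h3 : z.bits.length ≤ x.bits.length := by
      rw [Nat.size_eq_bits_len, Nat.size_eq_bits_len]
      exact Nat.size_le_size h1.1
    omega

/-- the event for the first `N₀` bits of the oracle -/
def Ev (M : CAlg) (M' : Alg) (i ℓ N₀ w ar : ℕ) (m : ℕ → ℕ) (as : List ℕ) (bx : List Bool)
    (e : Idx (Fin (2 ^ ar - 1)) (w :: pw as) → Fin N₀) (a : Fin N₀ → Bool) : Prop :=
  Win M.D (fun q => An ℓ m i true (fun _ => leaf M' N₀) q a)
    (Tr (w :: pw as) (fun g => a (e g))) bx (M.p.eval bx.length) []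

open Classical in
/-- the probability of the event -/
theorem ev_le {i n u ar : ℕ} {as : List ℕ} (M : CAlg) (M' : Alg) (ℓ N₀ mm : ℕ)
    (m : ℕ → ℕ) (hm : ∀ c ≤ ℓ, m c ≤ mm) (bx : List Bool)
    (e : Idx (Fin (2 ^ ar - 1)) (8 * n :: pw as) → Fin N₀) (he : Function.Injective e)
    (hdep : M'.p.eval (ℓ + i * (2 * mm + 1)) ≤ 2 ^ (2 * u))
    (hmain : ∀ (D : List Bool → List Bool)
      (bx a0 : List Bool) (steps ℓ mm : ℕ) (m : ℕ → ℕ) (_ : ∀ c ≤ ℓ, m c ≤ mm)
      (F : ℕ → List Bool → (Idx (Fin (2 ^ ar - 1)) (8 * n :: pw as) → Bool) → Bool)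
      (_ : ∀ c ≤ ℓ, ∀ y : List Bool, y.length ≤ ℓ + i * (2 * mm + 1) →
        DTr (2 ^ (2 * u)) (F c y)) (b : Bool),
      Gm (1 / 2) (8 * n :: pw as) (fun _ => none) (An ℓ m i b F)
        (fun g v => Win D g v bx steps a0) ≤ err i n u steps ℓ mm) :
    Ex unif (fun a : Fin N₀ → Bool => if Ev M M' i ℓ N₀ (8 * n) ar m as bx e a
      then (1 : ℝ) else 0) ≤ err i n u (M.p.eval bx.length) ℓ mm := by
  rw [Ex_overwrite e he]
  have hu0 : ∀ b, 0 ≤ unif b := fun b => by unfold unif; norm_num
  have hu1 : ∑ b, unif b = 1 := by unfold unif; simp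
  refine (Ex_mono hu0 (G := fun _ => err i n u (M.p.eval bx.length) ℓ mm) fun a => ?_).trans
    (Ex_const hu1 _).le
  set ow : (Idx (Fin (2 ^ ar - 1)) (8 * n :: pw as) → Bool) → Fin N₀ → Bool :=
    fun z i => if h : ∃ j, e j = i then z h.choose else a i with how
  have h1 := hmain M.D bx [] (M.p.eval bx.length) ℓ mm m hm
    (fun _ y z => leaf M' N₀ y (ow z)) (by
      intro c _ y hy
      refine DTr_overwrite e a ?_
      exact (dtr_out M' N₀ y).mono ((eval_mono _ hy).trans hdep)) true
  refine le_trans (le_of_eq ?_) h1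
  unfold Gm
  refine congrArg _ ?_
  funext z
  have h2 : (fun q => An ℓ m i true (fun _ => leaf M' N₀) q (ow z)) =
      fun q => An ℓ m i true (fun _ y z => leaf M' N₀ y (ow z)) q z := by
    funext q
    unfold An
    by_cases hq : q.length ≤ ℓ
    · rw [if_pos hq, if_pos hq]
      exact QF_comp (m q.length) (leaf M' N₀) ow i true q z
    · rw [if_neg hq, if_neg hq]
  have h3 : (fun g => ow z (e g)) = PHG.val (fun _ => none) z := by
    funext g
    have h : ∃ j, e j = e g := ⟨g, rfl⟩
    simp only [how, PHG.val, Option.getD_none]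
    rw [dif_pos h, he h.choose_spec]
  have h4 : Ev M M' i ℓ N₀ (8 * n) ar m as bx e (ow z) ↔
      Win M.D (fun q => An ℓ m i true (fun _ y z => leaf M' N₀ y (ow z)) q z)
        (Tr (8 * n :: pw as) (PHG.val (fun _ => none) z)) bx (M.p.eval bx.length) [] := by
    unfold Ev
    rw [h2, h3]
  exact if_congr h4 rfl rfl

/-- the event of the oracles -/
def Bad (i : ℕ) (M : CAlg) (M' : Alg) (p : Polynomial ℕ) : Set Oracle :=
  {A | ∃ V : List Bool → List Bool, (∀ y, M'.out A y = some (V y)) ∧
    M.Computes {q | Quant (p.eval q.length) V i true q} (Cr (cc i) i A) id}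

/-- the bound for the histories -/
noncomputable def LP (M : CAlg) : Polynomial ℕ :=
  M.p * (Polynomial.C 2 * Polynomial.X + Polynomial.C 3)

/-- the bound for the length of the questions -/
noncomputable def lP (M : CAlg) (b : Polynomial ℕ) : Polynomial ℕ :=
  b.comp (Polynomial.C 4 * (Polynomial.C 2 * Polynomial.X + Polynomial.C 1 + LP M) +
    Polynomial.C 1)

/-- the bound for the quantifiers -/
noncomputable def mP (M : CAlg) (b p : Polynomial ℕ) : Polynomial ℕ := p.comp (lP M b)

/-- the bound for all strings -/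
noncomputable def RP (M : CAlg) (b p : Polynomial ℕ) (i : ℕ) : Polynomial ℕ :=
  lP M b + Polynomial.C i * (Polynomial.C 2 * mP M b p + Polynomial.C 1)

/-- the sum of everything -/
noncomputable def totP (M : CAlg) (M' : Alg) (b p : Polynomial ℕ) (i : ℕ) : Polynomial ℕ :=
  Polynomial.C i + lP M b + RP M b p i + Polynomial.C 2 + M.p + M'.p.comp (RP M b p i)

open Classical in
theorem bad_le (i : ℕ) (M : CAlg) (M' : Alg) (p : Polynomial ℕ) : ∃ P : Polynomial ℕ,
    ∀ u : ℕ, 1 ≤ u → P.eval u ≤ 2 ^ u → ranO (Bad i M M' p) ≤ ENNReal.ofReal (4 * (1 / 2) ^ u) := by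
  obtain ⟨b, hb⟩ := (poly_of_polyTime M.poly).sz_le
  obtain ⟨qb, hqb⟩ := M'.out_local
  refine ⟨(totP M M' b p i).comp (Polynomial.C (cc i * 512) * Polynomial.X) + Polynomial.X,
    fun u hu hP => ?_⟩
  rw [Polynomial.eval_add, Polynomial.eval_comp, Polynomial.eval_mul, Polynomial.eval_C,
    Polynomial.eval_X] at hP
  have hn : 5 ≤ 8 * u := by omega
  obtain ⟨as, ar, hlen, has, har, hnar, hmain⟩ := lev_all hn i
  obtain ⟨x, pad, hx, hX⟩ := exists_inst (i := i) (n := 8 * u) (ar := ar) (by omega) as hlen has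
    hnar
  -- the numbers
  set X : ℕ := x.bits.length with hXd
  have hXle : X ≤ cc i * 512 * u := by
    rw [hX]
    calc cc i * ar ≤ cc i * (64 * (8 * u)) := Nat.mul_le_mul_left _ har
      _ = cc i * 512 * u := by ring
  set L : ℕ := (LP M).eval X with hL
  set ℓ : ℕ := (lP M b).eval X with hℓ
  set mm : ℕ := (mP M b p).eval X with hmm
  set R : ℕ := (RP M b p i).eval X with hR
  have hLe : L = M.p.eval X * (2 * X + 3) := by
    simp [hL, LP]
  have hℓe : ℓ = b.eval (4 * (2 * X + 1 + L) + 1) := by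
    simp [hℓ, lP, hL, Polynomial.eval_comp]
  have hmme : mm = p.eval ℓ := by
    simp [hmm, mP, hℓ, Polynomial.eval_comp]
  have hRe : R = ℓ + i * (2 * mm + 1) := by
    simp [hR, RP, hℓ, hmm]
  have htot : i + ℓ + R + 2 + M.p.eval X + M'.p.eval R + u ≤ 2 ^ u := by
    have h1 : (totP M M' b p i).eval X ≤ (totP M M' b p i).eval (cc i * 512 * u) :=
      eval_mono _ hXle
    have h2 : (totP M M' b p i).eval X = i + ℓ + R + 2 + M.p.eval X + M'.p.eval R := by
      simp [totP, hℓ, hR, Polynomial.eval_comp]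
    omega
  have hm : ∀ c ≤ ℓ, p.eval c ≤ mm := by
    intro c hc
    rw [hmme]
    exact eval_mono _ hc
  have hdep : M'.p.eval (ℓ + i * (2 * mm + 1)) ≤ 2 ^ (2 * u) := by
    rw [← hRe]
    have : 2 ^ u ≤ 2 ^ (2 * u) := Nat.pow_le_pow_right (by norm_num) (by omega)
    omega
  -- the strings
  have hcar : ar ≤ X := by
    rw [hX]
    unfold cc
    nlinarith
  set xss : Fin (2 ^ ar - 1) → List Bool := xs as (8 * (8 * u)) x.bits pad with hxss
  have hxinj : Function.Injective xss := xs_inj hcar
  have hxlen : ∀ j, (xss j).length = 2 * X := fun j => length_xs hx j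
  set lf : Idx (Fin (2 ^ ar - 1)) (8 * (8 * u) :: pw as) → List Bool :=
    fun g => addr xss as g.1 ++ List.replicate g.2.val true with hlf
  have hlfinj : Function.Injective lf := leaf_inj xss hxinj (2 * X) hxlen as (8 * (8 * u))
  have hlflen : ∀ g, (lf g).length ≤ 2 * X + as.sum + 8 * (8 * u) :=
    fun g => leaf_len xss (2 * X) hxlen as (8 * (8 * u)) g
  set len : ℕ := qb.eval R + (2 * X + as.sum + 8 * (8 * u)) with hlend
  set N₀ : ℕ := 2 ^ (len + 1) with hN₀
  have hidx : ∀ q : List Bool, q.length ≤ len → idx q < N₀ := by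
    intro q hq
    have h1 := idx_lt q
    have h2 : 2 ^ (q.length + 1) ≤ 2 ^ (len + 1) := Nat.pow_le_pow_right (by norm_num) (by omega)
    omega
  set e : Idx (Fin (2 ^ ar - 1)) (8 * (8 * u) :: pw as) → Fin N₀ := fun g =>
    ⟨idx (lf g), hidx _ ((hlflen g).trans (by omega))⟩ with hed
  have heinj : Function.Injective e := by
    intro g g' h
    have h1 : idx (lf g) = idx (lf g') := by
      have := congrArg Fin.val h
      exact this
    apply hlfinj
    rw [← str_idx (lf g), h1, str_idx]
  have hev := ev_le (i := i) (n := 8 * u) (u := u) (ar := ar) (as := as) M M' ℓ N₀ mm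
    (fun c => p.eval c) hm x.bits e heinj hdep (hmain u (by omega))
  have herr := err_le (i := i) (u := u) (steps := M.p.eval X) (ℓ := ℓ) (mm := mm) hu (by
    rw [← hRe]
    omega)
  -- the event contains the bad oracles
  have hsub : Bad i M M' p ⊆ {A : Oracle | Ev M M' i ℓ N₀ (8 * (8 * u)) ar (fun c => p.eval c) as
      x.bits e (fun j : Fin N₀ => A (str j))} := by
    rintro A ⟨V, hV, hcomp⟩
    show Ev M M' i ℓ N₀ (8 * (8 * u)) ar (fun c => p.eval c) as x.bits e (pre N₀ A)
    set v : Fin (2 ^ ar - 1) → Bool := Tr (8 * (8 * u) :: pw as)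
      (leaves xss as (8 * (8 * u)) A) with hv
    have hfe : ∀ y, Cr (cc i) i A x y ↔ feas v y := fun y =>
      feas_cr hlen hx hX (by unfold cc; omega) y
    have hle : ∀ y, Cr (cc i) i A x y → y ≤ x := fun y =>
      (isOpt_Cr (cc i) i (by unfold cc; omega) A).le x y
    obtain ⟨y, hy1, hy2⟩ := hcomp x (fun _ y => ans v y) (ans_correct hfe hle)
    rw [run_eq] at hy1
    have hb2 := (opt_iff hfe hle y).1 hy2
    have hvE : v = Tr (8 * (8 * u) :: pw as) (fun g => pre N₀ A (e g)) := by
      rw [hv]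
      congr 1
      funext g
      show A (lf g) = A (str (idx (lf g)))
      rw [str_idx]
    unfold Ev
    rw [← hvE]
    refine ⟨y, ?_, hb2⟩
    rw [← hy1]
    symm
    apply play_congr (L := L) (ℓ := ℓ) (B := X)
    · intro a ha
      have h1 := hb (pairBits x.bits a)
      have h2 := length_lt_sz (M.D (pairBits x.bits a))
      have h3 := sz_listBool_le (pairBits x.bits a)
      rw [length_pairBits] at h3
      rw [hℓe]
      refine h2.le.trans (h1.trans (eval_mono _ ?_))
      omega
    · intro y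
      exact ansCode_len hfe hle y
    · intro q hq
      unfold An
      rw [if_pos hq]
      have h1 : ∀ y : List Bool, y.length ≤ R →
          (V y = [true] ↔ leaf M' N₀ y (pre N₀ A) = true) := by
        intro y hy
        unfold leaf
        rw [decide_eq_true_eq]
        obtain ⟨Q, _, hQ2, hQ3⟩ := hqb A y
        have h2 : M'.out (orc N₀ (pre N₀ A)) y = M'.out A y := by
          apply hQ3
          intro q hq
          apply orc_pre
          apply hidx
          have h3 := hQ2 q hq
          have h4 : qb.eval y.length ≤ qb.eval R := eval_mono _ hy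
          omega
        rw [h2, hV y, Option.some.injEq]
      have h2 := quant_iff (N := N₀) (m := p.eval q.length) (A := A) (M := M') (V := V) R h1 i
        true q (by
          have h3 : 2 * p.eval q.length + 1 ≤ 2 * mm + 1 := by
            have := hm q.length hq
            omega
          have h4 : i * (2 * p.eval q.length + 1) ≤ i * (2 * mm + 1) := Nat.mul_le_mul_left i h3
          omega)
      have h5 : q ∈ {q : List Bool | Quant (p.eval q.length) V i true q} ↔
        QF (p.eval q.length) (leaf M' N₀) i true q (pre N₀ A) = true := h2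
      rw [Bool.eq_iff_iff, decide_eq_true_eq]
      exact h5
    · rw [hLe]
      simp only [List.length_nil, zero_add]
      exact le_refl _
  refine (measure_mono hsub).trans ?_
  refine (ranO_cyl_le (fun j : Fin N₀ => str j) (fun j j' h => Fin.ext (str_injective h))
    (Ev M M' i ℓ N₀ (8 * (8 * u)) ar (fun c => p.eval c) as x.bits e)).trans ?_
  apply ENNReal.ofReal_le_ofReal
  refine le_trans (le_of_eq ?_) (hev.trans herr)
  congr

end Pool.Agent.V8H57.CX
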