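import Pool.Agent.H591R3.PHG.Main
import Pool.Agent.V8H57.CX.Defs

/-! The game at the roots: hidden feasible solutions. -/

set_option autoImplicit false

namespace Pool.Agent.V8H57.CX

open Finset H568R2 Pool.Agent.H676 Pool.Agent.H620R2.Gauge Pool.Agent.NPC
  Pool.Agent.H591R3 Pool.Agent.H591R3.PHG

section game
variable {N : ℕ}

/-- `y` is feasible for the root values `v` -/
def feas (v : Fin N → Bool) (y : ℕ) : Prop := y = 0 ∨ ∃ j : Fin N, y = j.val + 1 ∧ v j = true

/-- `y` is the largest feasible number -/
def IsBest (v : Fin N → Bool) (y : ℕ) : Prop := feas v y ∧ ∀ y', feas v y' → y' ≤ y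

open Classical in
/-- the answers of the adversary -/
noncomputable def ans (v : Fin N → Bool) (y : ℕ) : Option ℕ :=
  if IsBest v y then none else if feas v y then some (sInf {y' | feas v y' ∧ y < y'}) else some 0

/-- the course of the computation -/
def play (D : List Bool → List Bool) (g : List Bool → Bool) (av : ℕ → Option ℕ)
    (bx : List Bool) : ℕ → List Bool → Option ℕ
  | 0, _ => none
  | n + 1, a =>
    match D (pairBits bx a) with
    | false :: q => play D g av bx n (pairBits [g q] a)
    | true :: false :: w => play D g av bx n (pairBits (ansCode (av (num w))) a)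
    | true :: true :: w => some (num w)
    | _ => some 0

/-- the computation finds the best number -/
def Win (D : List Bool → List Bool) (g : List Bool → Bool) (v : Fin N → Bool)
    (bx : List Bool) (n : ℕ) (a : List Bool) : Prop :=
  ∃ y, play D g (ans v) bx n a = some y ∧ IsBest v y

/-- the feasible numbers above `θ` -/
def above (v : Fin N → Bool) (θ : ℕ) : Finset (Fin N) := univ.filter (fun j => θ ≤ j.val ∧ v j = true)

/-- expectation over the undetermined roots -/
noncomputable def EE (t : ℝ) (s : Fin N → Option Bool) (G : (Fin N → Bool) → ℝ) : ℝ :=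
  Ex (ber t) (fun z => G (PHG.val s z))

theorem ber_nn {t : ℝ} (h0 : 0 ≤ t) (h1 : t ≤ 1) (b : Bool) : 0 ≤ ber t b := by
  unfold ber
  split_ifs <;> linarith

theorem ber_s (t : ℝ) : ∑ b, ber t b = 1 := by
  rw [Fintype.sum_bool]
  unfold ber
  simp

theorem EE_mono {t : ℝ} (h0 : 0 ≤ t) (h1 : t ≤ 1) {s : Fin N → Option Bool}
    {G H : (Fin N → Bool) → ℝ} (h : ∀ v, G v ≤ H v) : EE t s G ≤ EE t s H :=
  Ex_mono (ber_nn h0 h1) fun _ => h _

theorem EE_mono' {t : ℝ} (h0 : 0 ≤ t) (h1 : t ≤ 1) {s : Fin N → Option Bool}
    {G H : (Fin N → Bool) → ℝ} (h : ∀ v : Fin N → Bool, (∀ i b, s i = some b → v i = b) →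
      G v ≤ H v) : EE t s G ≤ EE t s H :=
  Ex_mono (ber_nn h0 h1) fun z => h _ fun i b hi => by simp [PHG.val, hi]

theorem EE_const (t : ℝ) (s : Fin N → Option Bool) (c : ℝ) : EE t s (fun _ => c) = c :=
  Ex_const (ber_s t) c

theorem EE_nonneg {t : ℝ} (h0 : 0 ≤ t) (h1 : t ≤ 1) {s : Fin N → Option Bool}
    {G : (Fin N → Bool) → ℝ} (h : ∀ v, 0 ≤ G v) : 0 ≤ EE t s G :=
  Ex_nonneg (ber_nn h0 h1) fun _ => h _

theorem val_upd (s : Fin N → Option Bool) (z : Fin N → Bool) (i : Fin N) (b : Bool)
    (hs : s i = none) : PHG.val s (Function.update z i b) = PHG.val (Function.update s i (some b)) z := by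
  funext j
  unfold PHG.val
  by_cases hj : j = i
  · subst hj
    simp [hs]
  · rw [Function.update_of_ne hj, Function.update_of_ne hj]

theorem EE_split (t : ℝ) (s : Fin N → Option Bool) (G : (Fin N → Bool) → ℝ) (i : Fin N)
    (hs : s i = none) : EE t s G = t * EE t (Function.update s i (some true)) G +
      (1 - t) * EE t (Function.update s i (some false)) G := by
  unfold EE
  rw [Ex_resample (ber_s t) _ i]
  simp only [Fintype.sum_bool, val_upd s _ i _ hs]
  rw [Ex_add, Ex_smul, Ex_smul]
  simp [ber]

theorem EE_congr {t : ℝ} {s : Fin N → Option Bool}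
    {G H : (Fin N → Bool) → ℝ} (h : ∀ v : Fin N → Bool, (∀ i b, s i = some b → v i = b) →
      G v = H v) : EE t s G = EE t s H := by
  unfold EE
  congr 1
  funext z
  exact h _ fun i b hi => by simp [PHG.val, hi]

theorem EE_le_one {t : ℝ} (h0 : 0 ≤ t) (h1 : t ≤ 1) {s : Fin N → Option Bool}
    {G : (Fin N → Bool) → ℝ} (h : ∀ v, G v ≤ 1) : EE t s G ≤ 1 :=
  (EE_mono h0 h1 (H := fun _ => 1) h).trans (EE_const t s 1).le

theorem EE_zero {t : ℝ} {s : Fin N → Option Bool} {G : (Fin N → Bool) → ℝ}
    (h : ∀ v : Fin N → Bool, (∀ i b, s i = some b → v i = b) → G v = 0) : EE t s G = 0 :=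
  (EE_congr (H := fun _ => 0) h).trans (EE_const t s 0)

theorem EE_one {t : ℝ} {s : Fin N → Option Bool} {G : (Fin N → Bool) → ℝ}
    (h : ∀ v : Fin N → Bool, (∀ i b, s i = some b → v i = b) → G v = 1) : EE t s G = 1 :=
  (EE_congr (H := fun _ => 1) h).trans (EE_const t s 1)

/-- probability of few feasible numbers above `θ` -/
noncomputable def Phi (t : ℝ) (s : Fin N → Option Bool) (θ m : ℕ) : ℝ :=
  EE t s (fun v => if (above v θ).card ≤ m then (1 : ℝ) else 0)

/-- The invariant: `θ` is feasible, no number above is known to be feasible, and everything below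
is known. -/
structure Gd (s : Fin N → Option Bool) (θ : ℕ) : Prop where
  up : ∀ j : Fin N, s j = some true → j.val + 1 ≤ θ
  top : θ = 0 ∨ ∃ j : Fin N, θ = j.val + 1 ∧ s j = some true
  low : ∀ j : Fin N, j.val + 1 < θ → s j ≠ none

theorem Phi_nonneg {t : ℝ} (h0 : 0 ≤ t) (h1 : t ≤ 1) (s : Fin N → Option Bool) (θ m : ℕ) :
    0 ≤ Phi t s θ m := EE_nonneg h0 h1 fun _ => by split_ifs <;> norm_num

theorem Phi_mono {t : ℝ} (h0 : 0 ≤ t) (h1 : t ≤ 1) (s : Fin N → Option Bool) (θ : ℕ) {m m' : ℕ}
    (h : m ≤ m') : Phi t s θ m ≤ Phi t s θ m' := by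
  refine EE_mono h0 h1 fun v => ?_
  split_ifs with h2 h3
  · exact le_refl _
  · exact absurd (h2.trans h) h3
  · norm_num
  · exact le_refl _

theorem Phi_false {t : ℝ} (h0 : 0 ≤ t) (h1 : t ≤ 1) (s : Fin N → Option Bool) (θ m : ℕ)
    (i : Fin N) (hs : s i = none) :
    (1 - t) * Phi t (Function.update s i (some false)) θ m ≤ Phi t s θ m := by
  unfold Phi
  rw [EE_split t s _ i hs]
  have : 0 ≤ t * EE t (Function.update s i (some true))
      (fun v => if (above v θ).card ≤ m then (1 : ℝ) else 0) :=
    mul_nonneg h0 (EE_nonneg h0 h1 fun _ => by split_ifs <;> norm_num)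
  linarith

theorem Gd.setF {s : Fin N → Option Bool} {θ : ℕ} (h : Gd s θ) {i : Fin N}
    (hi : s i = none        ) : Gd (Function.update s i (some false)) θ := by
  refine ⟨fun j hj => ?_, ?_, fun j hj => ?_⟩
  · by_cases hji : j = i
    · subst hji
      simp at hj
    · rw [Function.update_of_ne hji] at hj
      exact h.up j hj
  · rcases h.top with h0 | ⟨j, hj, hs⟩
    · exact Or.inl h0
    · refine Or.inr ⟨j, hj, ?_⟩
      rw [Function.update_of_ne]
      · exact hs
      · rintro rfl
        rw [hs] at hi
        simp at hi
  · by_cases hji : j = i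
    · subst hji
      simp
    · rw [Function.update_of_ne hji]
      exact h.low j hj

/-- agreement with what is known -/
def Agree (s : Fin N → Option Bool) (v : Fin N → Bool) : Prop := ∀ i b, s i = some b → v i = b

theorem Agree.fe {s : Fin N → Option Bool} {θ : ℕ} (h : Gd s θ) {v : Fin N → Bool}
    (hv : Agree s v) : feas v θ := by
  rcases h.top with h0 | ⟨j, hj, hs⟩
  · exact Or.inl h0
  · exact Or.inr ⟨j, hj, hv j true hs⟩

theorem above_zero_iff {v : Fin N → Bool} {θ : ℕ} (h : feas v θ) :
    IsBest v θ ↔ (above v θ).card ≤ 0 := by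
  rw [Nat.le_zero, Finset.card_eq_zero, Finset.eq_empty_iff_forall_notMem]
  constructor
  · rintro ⟨_, h2⟩ j hj
    simp only [above, mem_filter, mem_univ, true_and] at hj
    have := h2 (j.val + 1) (Or.inr ⟨j, rfl, hj.2⟩)
    omega
  · intro h2
    refine ⟨h, ?_⟩
    rintro y' (rfl | ⟨j, rfl, hj⟩)
    · exact Nat.zero_le _
    · by_contra hlt
      exact h2 j (by simp only [above, mem_filter, mem_univ, true_and]; exact ⟨by omega, hj⟩)

theorem scan_true {s : Fin N → Option Bool} {θ : ℕ} (hG : Gd s θ) {i : Fin N} (hθi : θ ≤ i.val)
    (hkn : ∀ i' : Fin N, θ ≤ i'.val → i'.val < i.val → s i' = some false) (hi : s i = none)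
    {v : Fin N → Bool} (hv : Agree (Function.update s i (some true)) v) :
    ans v θ = some (i.val + 1) ∧ (above v θ).card = (above v (i.val + 1)).card + 1 := by
  classical
  have hvi : v i = true := hv i true (by simp)
  have hv' : Agree s v := by
    intro j b hj
    apply hv j b
    rw [Function.update_of_ne]
    · exact hj
    · rintro rfl
      rw [hi] at hj
      simp at hj
  have hfe : feas v θ := Agree.fe hG hv'
  have hnb : ¬ IsBest v θ := by
    intro h
    have := h.2 (i.val + 1) (Or.inr ⟨i, rfl, hvi⟩)
    omega
  constructor
  · unfold ans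
    rw [if_neg hnb, if_pos hfe]
    congr 1
    have hmem : i.val + 1 ∈ {y' | feas v y' ∧ θ < y'} := ⟨Or.inr ⟨i, rfl, hvi⟩, by omega⟩
    apply le_antisymm (Nat.sInf_le hmem)
    apply le_csInf ⟨_, hmem⟩
    rintro y' ⟨hy', hlt⟩
    rcases hy' with rfl | ⟨j, rfl, hj⟩
    · omega
    · by_contra hcon
      have h1 : j.val < i.val := by omega
      have h2 := hkn j (by omega) h1
      have h3 := hv' j false h2
      rw [hj] at h3
      exact Bool.noConfusion h3
  · have h1 : above v θ = insert i (above v (i.val + 1)) := by
      ext j
      simp only [above, mem_filter, mem_univ, true_and, mem_insert]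
      constructor
      · rintro ⟨h2, h3⟩
        rcases lt_trichotomy j.val i.val with h | h | h
        · have h4 := hv' j false (hkn j h2 h)
          rw [h3] at h4
          exact Bool.noConfusion h4
        · exact Or.inl (Fin.ext h)
        · exact Or.inr ⟨by omega, h3⟩
      · rintro (rfl | ⟨h2, h3⟩)
        · exact ⟨hθi, hvi⟩
        · exact ⟨by omega, h3⟩
    rw [h1, Finset.card_insert_of_notMem]
    simp [above]

theorem Gd.setT {s : Fin N → Option Bool} {θ : ℕ} (hG : Gd s θ) {i : Fin N} (hθi : θ ≤ i.val)
    (hkn : ∀ i' : Fin N, θ ≤ i'.val → i'.val < i.val → s i' = some false) :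
    Gd (Function.update s i (some true)) (i.val + 1) := by
  refine ⟨fun j hj => ?_, Or.inr ⟨i, rfl, by simp⟩, fun j hj => ?_⟩
  · by_cases hji : j = i
    · subst hji
      exact le_refl _
    · rw [Function.update_of_ne hji] at hj
      have := hG.up j hj
      omega
  · have hji : j ≠ i := by
      rintro rfl
      omega
    rw [Function.update_of_ne hji]
    by_cases h1 : θ ≤ j.val
    · rw [hkn j h1 (by omega)]
      simp
    · by_cases h2 : j.val + 1 < θ
      · exact hG.low j h2
      · rcases hG.top with h0 | ⟨j', hj', hs⟩
        · omega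
        · have : j = j' := Fin.ext (by omega)
          rw [this, hs]
          simp

theorem scan {t B : ℝ} (h0 : 0 ≤ t) (h1 : t ≤ 1) (hB : 0 ≤ B) (H : Option ℕ → (Fin N → Bool) → ℝ)
    (hH1 : ∀ o v, H o v ≤ 1) (n : ℕ)
    (IH : ∀ (s : Fin N → Option Bool) (θ : ℕ), Gd s θ → ∀ o, EE t s (H o) ≤ B + Phi t s θ n)
    (θ : ℕ) : ∀ (d j : ℕ), j + d = N → ∀ s : Fin N → Option Bool, Gd s θ → θ ≤ j →
      (∀ i : Fin N, θ ≤ i.val → i.val < j → s i = some false) →
      EE t s (fun v => H (ans v θ) v) ≤ B + Phi t s θ (n + 1) := by
  intro d
  induction d with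
  | zero =>
    intro j hj s hG _ hkn
    have h2 : EE t s (fun v => H (ans v θ) v) ≤ 1 := EE_le_one h0 h1 fun v => hH1 _ _
    have h3 : Phi t s θ (n + 1) = 1 := by
      unfold Phi
      apply EE_one
      intro v hv
      rw [if_pos]
      have : above v θ = ∅ := by
        rw [Finset.eq_empty_iff_forall_notMem]
        intro i hi
        simp only [above, mem_filter, mem_univ, true_and] at hi
        have h4 := hv i false (hkn i hi.1 (by have := i.isLt; omega))
        rw [hi.2] at h4
        exact Bool.noConfusion h4
      rw [this]
      simp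
    linarith
  | succ d ih =>
    intro j hj s hG hθj hkn
    have hjN : j < N := by omega
    set i : Fin N := ⟨j, hjN⟩ with hi
    rcases hs : s i with _ | b
    · rw [EE_split t s _ i hs]
      have hT : EE t (Function.update s i (some true)) (fun v => H (ans v θ) v) ≤
          B + Phi t (Function.update s i (some true)) (i.val + 1) n := by
        have h2 : EE t (Function.update s i (some true)) (fun v => H (ans v θ) v) =
            EE t (Function.update s i (some true)) (H (some (i.val + 1))) := by
          apply EE_congr
          intro v hv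
          rw [(scan_true hG hθj hkn hs hv).1]
        rw [h2]
        exact IH _ _ (hG.setT hθj hkn) _
      have hF : EE t (Function.update s i (some false)) (fun v => H (ans v θ) v) ≤
          B + Phi t (Function.update s i (some false)) θ (n + 1) := by
        apply ih (j + 1) (by omega) _ (hG.setF hs) (by omega)
        intro i' h2 h3
        by_cases h4 : i' = i
        · rw [h4]; simp
        · rw [Function.update_of_ne h4]
          apply hkn i' h2
          have : i'.val ≠ j := fun h => h4 (Fin.ext h)
          omega
      have hP : Phi t s θ (n + 1) = t * Phi t (Function.update s i (some true)) (i.val + 1) n +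
          (1 - t) * Phi t (Function.update s i (some false)) θ (n + 1) := by
        unfold Phi
        rw [EE_split t s _ i hs]
        congr 2
        apply EE_congr
        intro v hv
        rw [(scan_true hG hθj hkn hs hv).2]
        simp only [Nat.add_le_add_iff_right]
      rw [hP]
      have h4 := mul_le_mul_of_nonneg_left hT h0
      have h5 := mul_le_mul_of_nonneg_left hF (by linarith : (0 : ℝ) ≤ 1 - t)
      nlinarith
    · cases b with
      | true =>
        have := hG.up i hs
        simp only [hi] at this
        omega
      | false =>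
        apply ih (j + 1) (by omega) s hG (by omega)
        intro i' h2 h3
        by_cases h4 : i' = i
        · rw [h4]; exact hs
        · apply hkn i' h2
          have : i'.val ≠ j := fun h => h4 (Fin.ext h)
          omega

theorem feas_congr {s : Fin N → Option Bool} {θ : ℕ} (hG : Gd s θ) {v v' : Fin N → Bool}
    (hv : Agree s v) (hv' : Agree s v') {y : ℕ} (hy : y ≤ θ) (h : feas v y) : feas v' y := by
  rcases h with rfl | ⟨j, rfl, hj⟩
  · exact Or.inl rfl
  · by_cases h1 : j.val + 1 < θ
    · have h2 := hG.low j h1
      rcases hs : s j with _ | b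
      · exact absurd hs h2
      · have h3 := hv j b hs
        rw [hj] at h3
        subst h3
        exact Or.inr ⟨j, rfl, hv' j true hs⟩
    · have h2 : j.val + 1 = θ := by omega
      rw [h2]
      exact Agree.fe hG hv'

theorem ans_below {s : Fin N → Option Bool} {θ : ℕ} (hG : Gd s θ) {v v' : Fin N → Bool}
    (hv : Agree s v) (hv' : Agree s v') {y : ℕ} (hy : y < θ) : ans v y = ans v' y := by
  classical
  have hb : ∀ w : Fin N → Bool, Agree s w → ¬ IsBest w y := by
    intro w hw h
    have := h.2 θ (Agree.fe hG hw)
    omega
  unfold ans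
  rw [if_neg (hb v hv), if_neg (hb v' hv')]
  have hf : feas v y ↔ feas v' y := ⟨feas_congr hG hv hv' hy.le, feas_congr hG hv' hv hy.le⟩
  have hle : ∀ w w' : Fin N → Bool, Agree s w → Agree s w' →
      sInf {y' | feas w y' ∧ y < y'} ≤ sInf {y' | feas w' y' ∧ y < y'} := by
    intro w w' hw hw'
    have hθ : θ ∈ {y' | feas w' y' ∧ y < y'} := ⟨Agree.fe hG hw', hy⟩
    have h1 := Nat.sInf_mem (s := {y' | feas w' y' ∧ y < y'}) ⟨θ, hθ⟩
    apply Nat.sInf_le
    exact ⟨feas_congr hG hw' hw (Nat.sInf_le hθ) h1.1, h1.2⟩
  by_cases h : feas v y
  · rw [if_pos h, if_pos (hf.1 h)]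
    congr 1
    exact le_antisymm (hle v v' hv hv') (hle v' v hv' hv)
  · rw [if_neg h, if_neg (fun h' => h (hf.2 h'))]

theorem ans_infeas {v : Fin N → Bool} {y : ℕ} (h : ¬ feas v y) : ans v y = some 0 := by
  unfold ans
  rw [if_neg (fun hb => h hb.1), if_neg h]

theorem present {t B : ℝ} (h0 : 0 ≤ t) (h1 : t ≤ 1) (hB : 0 ≤ B)
    (H : Option ℕ → (Fin N → Bool) → ℝ) (hH1 : ∀ o v, H o v ≤ 1) (n : ℕ)
    (IH : ∀ (s : Fin N → Option Bool) (θ : ℕ), Gd s θ → ∀ o, EE t s (H o) ≤ B + Phi t s θ n)
    {s : Fin N → Option Bool} {θ : ℕ} (hG : Gd s θ) (y : ℕ) :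
    EE t s (fun v => H (ans v y) v) ≤ t + (B + Phi t s θ (n + 1)) := by
  have hmono := Phi_mono h0 h1 s θ (Nat.le_succ n)
  rcases lt_trichotomy y θ with hy | rfl | hy
  · -- below
    have h2 : EE t s (fun v => H (ans v y) v) =
        EE t s (H (ans (PHG.val s (fun _ => false)) y)) := by
      apply EE_congr
      intro v hv
      rw [ans_below hG (v := v) (v' := PHG.val s (fun _ => false)) hv
        (fun i b hi => by simp [PHG.val, hi]) hy]
    rw [h2]
    have := IH s θ hG (ans (PHG.val s (fun _ => false)) y)
    linarith
  · have hN : y ≤ N := by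
      rcases hG.top with h | ⟨j, hj, _⟩
      · omega
      · have := j.isLt
        omega
    have := scan h0 h1 hB H hH1 n IH y (N - y) y (by omega) s hG le_rfl
      (fun i h2 h3 => by omega)
    linarith
  · by_cases hyN : y ≤ N
    · set i : Fin N := ⟨y - 1, by omega⟩ with hi
      have hyi : y = i.val + 1 := by simp only [hi]; omega
      have hinf : ∀ v : Fin N → Bool, v i = false → ¬ feas v y := by
        rintro v hv (h | ⟨j, hj, hvj⟩)
        · omega
        · have : j = i := Fin.ext (by omega)
          rw [this, hv] at hvj
          exact Bool.noConfusion hvj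
      rcases hs : s i with _ | b
      · rw [EE_split t s _ i hs]
        have hT : EE t (Function.update s i (some true)) (fun v => H (ans v y) v) ≤ 1 :=
          EE_le_one h0 h1 fun v => hH1 _ _
        have hF : EE t (Function.update s i (some false)) (fun v => H (ans v y) v) ≤
            B + Phi t (Function.update s i (some false)) θ n := by
          have h2 : EE t (Function.update s i (some false)) (fun v => H (ans v y) v) =
              EE t (Function.update s i (some false)) (H (some 0)) := by
            apply EE_congr
            intro v hv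
            rw [ans_infeas (hinf v (hv i false (by simp)))]
          rw [h2]
          exact IH _ _ (hG.setF hs) _
        have h4 := mul_le_mul_of_nonneg_left hT h0
        have h5 := mul_le_mul_of_nonneg_left hF (by linarith : (0 : ℝ) ≤ 1 - t)
        have h6 := Phi_false h0 h1 s θ n i hs
        nlinarith [mul_nonneg h0 hB]
      · cases b with
        | true =>
          have := hG.up i hs
          omega
        | false =>
          have h2 : EE t s (fun v => H (ans v y) v) = EE t s (H (some 0)) := by
            apply EE_congr
            intro v hv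
            rw [ans_infeas (hinf v (hv i false hs))]
          rw [h2]
          have := IH s θ hG (some 0)
          linarith
    · have h2 : EE t s (fun v => H (ans v y) v) = EE t s (H (some 0)) := by
        apply EE_congr
        intro v hv
        rw [ans_infeas]
        rintro (h | ⟨j, hj, _⟩)
        · omega
        · have := j.isLt
          omega
      rw [h2]
      have := IH s θ hG (some 0)
      linarith

open Classical in
theorem output {t : ℝ} (h0 : 0 ≤ t) (h1 : t ≤ 1) (n : ℕ)
    {s : Fin N → Option Bool} {θ : ℕ} (hG : Gd s θ) (y : ℕ) :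
    EE t s (fun v => if IsBest v y then (1 : ℝ) else 0) ≤ t + Phi t s θ n := by
  have hP := Phi_nonneg h0 h1 s θ n
  rcases lt_trichotomy y θ with hy | rfl | hy
  · have h2 : EE t s (fun v => if IsBest v y then (1 : ℝ) else 0) = EE t s (fun _ => (0 : ℝ)) := by
      apply EE_congr
      intro v hv
      rw [if_neg]
      intro h
      have := h.2 θ (Agree.fe hG hv)
      omega
    rw [h2, EE_const]
    linarith
  · have h2 : EE t s (fun v => if IsBest v y then (1 : ℝ) else 0) ≤ Phi t s y n := by
      unfold Phi
      apply EE_mono' h0 h1
      intro v hv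
      have hf := Agree.fe hG hv
      rw [above_zero_iff hf]
      split_ifs with h3 h4
      · exact le_refl _
      · exact absurd (h3.trans (Nat.zero_le _)) h4
      · norm_num
      · exact le_refl _
    linarith
  · by_cases hyN : y ≤ N
    · set i : Fin N := ⟨y - 1, by omega⟩ with hi
      have hyi : y = i.val + 1 := by simp only [hi]; omega
      have hinf : ∀ v : Fin N → Bool, v i = false → ¬ IsBest v y := by
        rintro v hv ⟨h | ⟨j, hj, hvj⟩, _⟩
        · omega
        · have : j = i := Fin.ext (by omega)
          rw [this, hv] at hvj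
          exact Bool.noConfusion hvj
      rcases hs : s i with _ | b
      · rw [EE_split t s _ i hs]
        have hT : EE t (Function.update s i (some true))
            (fun v => if IsBest v y then (1 : ℝ) else 0) ≤ 1 :=
          EE_le_one h0 h1 fun v => by split_ifs <;> norm_num
        have hF : EE t (Function.update s i (some false))
            (fun v => if IsBest v y then (1 : ℝ) else 0) = 0 := by
          apply EE_zero
          intro v hv
          rw [if_neg (hinf v (hv i false (by simp)))]
        rw [hF, mul_zero]
        have h4 := mul_le_mul_of_nonneg_left hT h0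
        linarith
      · cases b with
        | true =>
          have := hG.up i hs
          omega
        | false =>
          have h2 : EE t s (fun v => if IsBest v y then (1 : ℝ) else 0) = 0 := by
            apply EE_zero
            intro v hv
            rw [if_neg (hinf v (hv i false hs))]
          rw [h2]
          linarith
    · have h2 : EE t s (fun v => if IsBest v y then (1 : ℝ) else 0) = 0 := by
        apply EE_zero
        intro v hv
        rw [if_neg]
        rintro ⟨h | ⟨j, hj, _⟩, _⟩
        · omega
        · have := j.isLt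
          omega
      rw [h2]
      linarith

theorem ask {t B : ℝ} (h0 : 0 ≤ t) (h1 : t ≤ 1) (hB : 0 ≤ B)
    (H : Bool → (Fin N → Bool) → ℝ) (hH1 : ∀ o v, H o v ≤ 1) (n θ : ℕ)
    (IH : ∀ (s : Fin N → Option Bool), Gd s θ → ∀ o, EE t s (H o) ≤ B + Phi t s θ n) :
    ∀ (k : ℕ) (f : (Fin N → Bool) → Bool), DTr k f → ∀ s : Fin N → Option Bool, Gd s θ →
      EE t s (fun v => H (f v) v) ≤ k * t + (B + Phi t s θ n) := by
  intro k
  have hc : ∀ (k : ℕ) (f : (Fin N → Bool) → Bool), (∃ c, ∀ x, f x = c) →
      ∀ s : Fin N → Option Bool, Gd s θ →
      EE t s (fun v => H (f v) v) ≤ k * t + (B + Phi t s θ n) := by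
    rintro k f ⟨c, hf⟩ s hG
    simp only [hf]
    have h2 := IH s hG c
    have h3 : (0 : ℝ) ≤ k * t := by positivity
    have h4 : EE t s (fun v => H c v) = EE t s (H c) := rfl
    rw [h4]
    linarith
  induction k with
  | zero => exact fun f hf => hc 0 f hf
  | succ k ih =>
    intro f hf s hG
    rcases hf with hf | ⟨i, hf⟩
    · exact hc (k + 1) f hf s hG
    · rcases hs : s i with _ | b
      · rw [EE_split t s _ i hs]
        have hT : EE t (Function.update s i (some true)) (fun v => H (f v) v) ≤ 1 :=
          EE_le_one h0 h1 fun v => hH1 _ _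
        have hF : EE t (Function.update s i (some false)) (fun v => H (f v) v) ≤
            k * t + (B + Phi t (Function.update s i (some false)) θ n) := by
          have h2 : EE t (Function.update s i (some false)) (fun v => H (f v) v) =
              EE t (Function.update s i (some false))
                (fun v => H (f (Function.update v i false)) v) := by
            apply EE_congr
            intro v hv
            have h3 : v i = false := hv i false (by simp)
            have h4 : Function.update v i false = v := by
              rw [← h3]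
              exact Function.update_eq_self i v
            rw [h4]
          rw [h2]
          exact ih _ (hf false) _ (hG.setF hs)
        have h4 := mul_le_mul_of_nonneg_left hT h0
        have h5 := mul_le_mul_of_nonneg_left hF (by linarith : (0 : ℝ) ≤ 1 - t)
        have h6 := Phi_false h0 h1 s θ n i hs
        have h7 : (0 : ℝ) ≤ t * (k * t + B) := by positivity
        push_cast
        nlinarith
      · have h2 : EE t s (fun v => H (f v) v) =
            EE t s (fun v => H (f (Function.update v i b)) v) := by
          apply EE_congr
          intro v hv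
          have h3 : v i = b := hv i b hs
          have h4 : Function.update v i b = v := by
            rw [← h3]
            exact Function.update_eq_self i v
          rw [h4]
        rw [h2]
        have := ih _ (hf b) s hG
        push_cast
        linarith

open Classical in
/-- The computation with shallow oracle answers finds the best number with small probability
only. -/
theorem game {r : ℕ} {t : ℝ} (h0 : 0 ≤ t) (h1 : t ≤ 1) (D : List Bool → List Bool)
    (bx : List Bool) (g : List Bool → (Fin N → Bool) → Bool) (hg : ∀ q, DTr r (g q)) :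
    ∀ (n : ℕ) (a : List Bool) (s : Fin N → Option Bool) (θ : ℕ), Gd s θ →
      EE t s (fun v => if Win D (fun q => g q v) v bx n a then (1 : ℝ) else 0) ≤
        (n * (r + 1) + 1) * t + Phi t s θ n := by
  intro n
  induction n with
  | zero =>
    intro a s θ hG
    have h2 : EE t s (fun v => if Win D (fun q => g q v) v bx 0 a then (1 : ℝ) else 0) = 0 := by
      apply EE_zero
      intro v hv
      rw [if_neg]
      rintro ⟨y, hy, _⟩
      simp [play] at hy
    rw [h2]
    have := Phi_nonneg h0 h1 s θ 0
    push_cast
    linarith
  | succ n ih =>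
    intro a s θ hG
    have hB : (0 : ℝ) ≤ (n * (r + 1) + 1) * t := by positivity
    have hrt : (0 : ℝ) ≤ r * t := by positivity
    have hmono := Phi_mono h0 h1 s θ (Nat.le_succ n)
    have hout : ∀ y : ℕ, (∀ v : Fin N → Bool, play D (fun q => g q v) (ans v) bx (n + 1) a =
        some y) → EE t s (fun v => if Win D (fun q => g q v) v bx (n + 1) a then (1 : ℝ) else 0) ≤
        ((n + 1 : ℕ) * (r + 1) + 1) * t + Phi t s θ (n + 1) := by
      intro y hy
      have h2 : EE t s (fun v => if Win D (fun q => g q v) v bx (n + 1) a then (1 : ℝ) else 0) ≤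
          EE t s (fun v => if IsBest v y then (1 : ℝ) else 0) := by
        apply EE_mono h0 h1
        intro v
        by_cases hw : Win D (fun q => g q v) v bx (n + 1) a
        · obtain ⟨y', hy', hb⟩ := hw
          rw [hy v, Option.some.injEq] at hy'
          subst hy'
          rw [if_pos hb]
          split_ifs <;> norm_num
        · rw [if_neg hw]
          split_ifs <;> norm_num
      have h3 := output h0 h1 (n + 1) hG y
      push_cast
      nlinarith
    rcases hD : D (pairBits bx a) with _ | ⟨b, l⟩
    · exact hout 0 fun v => by simp only [play, hD]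
    · cases b with
      | false =>
        have h2 : ∀ v : Fin N → Bool, Win D (fun q => g q v) v bx (n + 1) a ↔
            Win D (fun q => g q v) v bx n (pairBits [g l v] a) := by
          intro v
          unfold Win
          simp only [play, hD]
        simp only [h2]
        have h3 := ask h0 h1 hB
          (fun b v => if Win D (fun q => g q v) v bx n (pairBits [b] a) then (1 : ℝ) else 0)
          (fun o v => by split_ifs <;> norm_num) n θ (fun s' hs' o => ih _ s' θ hs') r (g l)
          (hg l) s hG
        refine h3.trans ?_
        push_cast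
        nlinarith
      | true =>
        rcases l with _ | ⟨b, w⟩
        · exact hout 0 fun v => by simp only [play, hD]
        · cases b with
          | true => exact hout (num w) fun v => by simp only [play, hD]
          | false =>
            have h2 : ∀ v : Fin N → Bool, Win D (fun q => g q v) v bx (n + 1) a ↔
                Win D (fun q => g q v) v bx n (pairBits (ansCode (ans v (num w))) a) := by
              intro v
              unfold Win
              simp only [play, hD]
            simp only [h2]
            have h3 := present h0 h1 hB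
              (fun o v => if Win D (fun q => g q v) v bx n (pairBits (ansCode o) a)
                then (1 : ℝ) else 0)
              (fun o v => by split_ifs <;> norm_num) n (fun s' θ' hs' o => ih _ s' θ' hs') hG
              (num w)
            refine h3.trans ?_
            push_cast
            nlinarith

end game

end Pool.Agent.V8H57.CX
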