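import Pool.Agent.V8H57.CX.Game

/-! All the levels of the forest above the roots. -/

set_option autoImplicit false

namespace Pool.Agent.V8H57.CX

open Finset H568R2 Pool.Agent.H676 Pool.Agent.H620R2.Gauge Pool.Agent.NPC
  Pool.Agent.H591R3 Pool.Agent.H591R3.PHG

/-- the answers to the questions of length at most `ℓ` -/
noncomputable def An {I : Type} (ℓ : ℕ) (m : ℕ → ℕ) (k : ℕ) (b : Bool)
    (F : ℕ → List Bool → (I → Bool) → Bool) (q : List Bool) (z : I → Bool) : Bool :=
  if q.length ≤ ℓ then QF (m q.length) (F q.length) k b q z else false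

open Classical in
/-- the probability of the property `W` of the answers and the values at the roots -/
noncomputable def Gm {N : ℕ} (t : ℝ) (cs : List ℕ) (s : Idx (Fin N) cs → Option Bool)
    (A : List Bool → (Idx (Fin N) cs → Bool) → Bool)
    (W : (List Bool → Bool) → (Fin N → Bool) → Prop) : ℝ :=
  Ex (ber t) (fun z : Idx (Fin N) cs → Bool =>
    if W (fun q => A q z) (Tr cs (PHG.val s z)) then (1 : ℝ) else 0)

open Classical in
/-- the rest of the bound, from the statuses at the last level -/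
noncomputable def Psi {N : ℕ} (t ξ : ℝ) (smin n : ℕ) :
    (cs : List ℕ) → (Idx (Fin N) cs → Option Bool) → ℝ
  | [], s => (if ∃ j : Fin N, s j = some true then 1 else 0) + Phi (N := N) t s 0 n
  | c :: cs, s => ∑ ρ : Idx (Fin N) cs → St c, wt (G := Idx (Fin N) cs) t t ξ smin s ρ *
      Psi t ξ smin n cs (fun h => (ρ h).1)

theorem Gm_le_one {N : ℕ} {t : ℝ} (h0 : 0 ≤ t) (h1 : t ≤ 1) (cs : List ℕ)
    (s : Idx (Fin N) cs → Option Bool) (A : List Bool → (Idx (Fin N) cs → Bool) → Bool)
    (W : (List Bool → Bool) → (Fin N → Bool) → Prop) : Gm t cs s A W ≤ 1 := by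
  classical
  unfold Gm
  refine (Ex_mono (G := fun _ => (1 : ℝ)) (ber_nn h0 h1) fun z => ?_).trans
    (le_of_eq (Ex_const (ber_s t) 1))
  split_ifs <;> norm_num

theorem Psi_nonneg {N : ℕ} {t ξ : ℝ} {smin n : ℕ} (ht : 0 < t)
    (ht1 : t < 1) (hξ : 0 ≤ ξ) (hξ1 : ξ ≤ 1) (hs : 1 ≤ smin)
    (h : (1 - ξ) * (1 - t) ^ smin / t + ξ * (1 - t) ^ smin ≤ 1) :
    ∀ (cs : List ℕ) (s : Idx (Fin N) cs → Option Bool), 0 ≤ Psi t ξ smin n cs s := by
  classical
  intro cs
  induction cs with
  | nil =>
    intro s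
    have := Phi_nonneg ht.le ht1.le (N := N) s 0 n
    show (0 : ℝ) ≤ (if ∃ j : Fin N, s j = some true then 1 else 0) + Phi (N := N) t s 0 n
    split_ifs <;> linarith
  | cons c cs ih =>
    intro s
    exact Finset.sum_nonneg fun ρ _ =>
      mul_nonneg (wt_nonneg ht ht1 ht hξ hξ1 hs h s ρ) (ih _)

/-- One level of the process. -/
theorem Gm_stage {N : ℕ} {c smin : ℕ} {t t' ξ : ℝ} (ht : 0 < t)
    (ht1 : t < 1) (ht' : 0 < t') (hs : 1 ≤ smin) (cs : List ℕ)
    (s : Idx (Fin N) (c :: cs) → Option Bool)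
    (A : List Bool → (Idx (Fin N) (c :: cs) → Bool) → Bool)
    (W : (List Bool → Bool) → (Fin N → Bool) → Prop) :
    Gm t (c :: cs) s A W = ∑ ρ : Idx (Fin N) cs → St c,
      wt (G := Idx (Fin N) cs) t t' ξ smin s ρ *
      Gm t' cs (fun h => (ρ h).1) (fun q z => A q (XX (G := Idx (Fin N) cs) s ρ z)) W := by
  classical
  unfold Gm
  have h1 := stage (G := Idx (Fin N) cs) (ξ := ξ) ht ht1 ht' hs s
    (fun z : Idx (Fin N) cs × Fin c → Bool =>
    if W (fun q => A q z) (Tr (c :: cs) (PHG.val (I := Idx (Fin N) cs × Fin c) s z))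
      then (1 : ℝ) else 0)
  refine Eq.trans ?_ (h1.trans ?_)
  · rfl
  · refine Finset.sum_congr rfl fun ρ _ => ?_
    by_cases hρ : wt (G := Idx (Fin N) cs) t t' ξ smin s ρ = 0
    · rw [hρ, zero_mul, zero_mul]
    · have h2 : ∀ z : Idx (Fin N) cs → Bool,
          Tr (c :: cs) (PHG.val (I := Idx (Fin N) cs × Fin c) s (XX s ρ z)) =
            Tr (X := Fin N) cs (PHG.val (fun h => (ρ h).1) z) := by
        intro z
        show Tr cs (fun g => decide (∀ i : Fin c,
          PHG.val (I := Idx (Fin N) cs × Fin c) s (XX s ρ z) (g, i) = false)) = _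
        congr 1
        funext g'
        exact val_stage (G := Idx (Fin N) cs) s ρ hρ z g'
      simp only [h2]

theorem XX_val {G : Type} {c : ℕ} (s : G × Fin c → Option Bool) (ρ : G → St c) (z : G → Bool) :
    XX s ρ (PHG.val (fun h => (ρ h).1) z) = XX s ρ z := by
  funext gi
  unfold XX xx PHG.val
  rcases h : (ρ gi.1).1 with _ | b
  · simp [h]
  · simp

/-- The levels. -/
theorem lev_ind {N n u : ℕ} (hn : 5 ≤ n) (hu : 8 * u ≤ n) (D : List Bool → List Bool)
    (bx a0 : List Bool) (steps ℓ mm : ℕ) (m : ℕ → ℕ) (hm : ∀ c ≤ ℓ, m c ≤ mm) :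
    ∀ (k : ℕ) (cs : List ℕ), cs.length = k → ∀ (s : Idx (Fin N) cs → Option Bool)
      (F : ℕ → List Bool → (Idx (Fin N) cs → Bool) → Bool),
      (∀ c ≤ ℓ, ∀ y : List Bool, y.length ≤ ℓ + k * (2 * mm + 1) → DTr (2 ^ (2 * u)) (F c y)) →
      (∀ c y z, F c y (PHG.val s z) = F c y z) → ∀ b : Bool,
      Gm (1 / 2 ^ (4 * n)) cs s (An ℓ m k b F)
        (fun g v => Win D g v bx steps a0) ≤
        k * ((ℓ + 1) * (2 ^ (ℓ + k * (2 * mm + 1) + 2) * (1 / 2) ^ (2 ^ (2 * u) + 1))) +
        (steps * ((2 ^ (2 * u) : ℕ) + 1) + 1) * (1 / 2 ^ (4 * n)) +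
        Psi (1 / 2 ^ (4 * n)) (1 / 2 ^ (2 * n)) (8 * n * 2 ^ (4 * n)) steps cs s := by
  classical
  set t : ℝ := 1 / 2 ^ (4 * n) with ht
  set ξ : ℝ := 1 / 2 ^ (2 * n) with hξ
  set smin : ℕ := 8 * n * 2 ^ (4 * n) with hsmin
  set r : ℕ := 2 ^ (2 * u) with hr
  have ht0 : 0 < t := by positivity
  have ht2 : t ≤ 1 / 2 := by
    rw [ht]
    apply one_div_le_one_div_of_le (by norm_num)
    calc (2 : ℝ) = 2 ^ 1 := by norm_num
      _ ≤ 2 ^ (4 * n) := pow_le_pow_right₀ (by norm_num) (by omega)
  have ht1 : t < 1 := by linarith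
  have hξ0 : 0 < ξ := by positivity
  have hξ1 : ξ ≤ 1 := by
    rw [hξ, div_le_one (by positivity)]
    exact one_le_pow₀ (by norm_num)
  have hs1 : 1 ≤ smin := by
    rw [hsmin]
    have : 0 < 8 * n * 2 ^ (4 * n) := by positivity
    omega
  have hr1 : 1 ≤ r := Nat.one_le_two_pow
  obtain ⟨hl1, hl2, hl3⟩ := lam_bound hn hu
  have hlam4 : (1 : ℝ) / 2 ^ (6 * n) ≤ 1 / 4 := by
    apply one_div_le_one_div_of_le (by norm_num)
    calc (4 : ℝ) = 2 ^ 2 := by norm_num
      _ ≤ 2 ^ (6 * n) := pow_le_pow_right₀ (by norm_num) (by omega)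
  set E0 : ℝ := (steps * (r + 1) + 1) * t with hE0
  have hE0n : 0 ≤ E0 := by positivity
  -- the condition for the nonnegativity of the weights
  have hcond : (1 - ξ) * (1 - t) ^ smin / t + ξ * (1 - t) ^ smin ≤ 1 := by
    have h1 : (1 - t) ^ smin / t ≤ 1 / 4 := hl1.trans hlam4
    have h2 : (1 - t) ^ smin ≤ 1 / 4 := by
      have h3 : (1 - t) ^ smin ≤ 1 / 4 * t := (div_le_iff₀ ht0).1 h1
      nlinarith
    have h0 : 0 ≤ (1 - t) ^ smin := pow_nonneg (by linarith) _
    have h5 : 0 ≤ (1 - t) ^ smin / t := by positivity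
    have h3 : (1 - ξ) * (1 - t) ^ smin / t ≤ (1 - t) ^ smin / t := by
      rw [mul_div_assoc]
      nlinarith
    have h4 : ξ * (1 - t) ^ smin ≤ (1 - t) ^ smin := by nlinarith
    linarith
  intro k
  induction k with
  | zero =>
    intro cs hcs s F hF hval b
    match cs, hcs with
    | [], _ =>
      have hP := Phi_nonneg ht0.le ht1.le (N := N) s 0 steps
      have hPsi : Psi t ξ smin steps [] s =
        (if ∃ j : Fin N, s j = some true then 1 else 0) + Phi (N := N) t s 0 steps := rfl
      by_cases hex : ∃ j : Fin N, s j = some true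
      · have h1 := Gm_le_one ht0.le ht1.le [] s (An ℓ m 0 b F)
          (fun g v => Win D g v bx steps a0)
        rw [hPsi, if_pos hex]
        push_cast
        linarith
      · rw [hPsi, if_neg hex]
        have hGd : Gd (N := N) s 0 := by
          refine ⟨fun j hj => absurd ⟨j, hj⟩ hex, Or.inl rfl, fun j hj => ?_⟩
          omega
        set g : List Bool → (Fin N → Bool) → Bool := fun q v =>
          if q.length ≤ ℓ then F q.length q v else false with hg
        have h2 := game ht0.le ht1.le D bx g (r := r) (fun q => by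
          by_cases hq : q.length ≤ ℓ
          · have h3 : g q = F q.length q := by
              funext v
              simp only [hg, if_pos hq]
            rw [h3]
            exact hF q.length hq q (by omega)
          · exact DTr.const ⟨false, fun v => by simp only [hg, if_neg hq]⟩) steps a0 s 0 hGd
        have h4 : Gm t [] s (An ℓ m 0 b F) (fun g v => Win D g v bx steps a0) =
            EE t s (fun v => if Win D (fun q => g q v) v bx steps a0 then (1 : ℝ) else 0) := by
          unfold Gm EE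
          refine congrArg _ ?_
          funext z
          have h5 : (fun q => An ℓ m 0 b F q z) = fun q => g q (PHG.val s z) := by
            funext q
            simp only [An, hg]
            by_cases hq : q.length ≤ ℓ
            · rw [if_pos hq, if_pos hq]
              exact (hval _ _ _).symm
            · rw [if_neg hq, if_neg hq]
          rw [h5]
          rfl
        rw [h4]
        push_cast
        linarith
  | succ k ih =>
    intro cs hcs s F hF hval b
    match cs, hcs with
    | c :: cs, hcs =>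
      have hlen : cs.length = k := by simpa using hcs
      have hPsi : Psi t ξ smin steps (c :: cs) s = ∑ ρ : Idx (Fin N) cs → St c,
        wt (G := Idx (Fin N) cs) t t ξ smin s ρ * Psi t ξ smin steps cs (fun h => (ρ h).1) := rfl
      rw [hPsi, Gm_stage (t' := t) (ξ := ξ) (smin := smin) ht0 ht1 ht0 hs1 cs s]
      have hℓ : ℓ + (k + 1) * (2 * mm + 1) = ℓ + k * (2 * mm + 1) + (2 * mm + 1) := by ring
      set L : ℕ := ℓ + k * (2 * mm + 1) with hL
      set bad : ℕ → (Idx (Fin N) cs → St c) → Prop := fun e ρ => ¬ ∀ y : List Bool,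
        y.length ≤ L → ∀ b,
        DTr r (fun z : Idx (Fin N) cs → Bool => QF (m e) (F e) 1 b y (XX s ρ z)) with hbad
      have hsw : ∀ e ≤ ℓ, ∑ ρ : Idx (Fin N) cs → St c,
          wt (G := Idx (Fin N) cs) t t ξ smin s ρ * (if bad e ρ then (1 : ℝ) else 0) ≤
          2 ^ (L + 2) * (1 / 2) ^ (r + 1) := by
        intro e he
        have h1 := stage_switch (G := Idx (Fin N) cs) (c := c) (smin := smin) (r := r) (t := t)
          (t' := t) (ξ := ξ) (lam := 1 / 2 ^ (6 * n)) ht0 ht2 ht0 ht1.le hξ0 hξ1 hs1 hl1 hlam4 hr1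
          hl3 s (m e) L (F e) (fun y' hy' => hF e he y' (by
            rw [hℓ]
            have := hm e he
            omega))
        refine (le_of_eq (Finset.sum_congr rfl fun ρ _ => ?_)).trans (h1.trans ?_)
        · exact congrArg (fun q => wt (G := Idx (Fin N) cs) t t ξ smin s ρ * q)
            (if_congr Iff.rfl rfl rfl)
        · apply mul_le_mul_of_nonneg_left _ (by positivity)
          exact pow_le_pow_left₀ (by positivity) hl2 _
      have hnn : ∀ ρ : Idx (Fin N) cs → St c, 0 ≤ wt (G := Idx (Fin N) cs) t t ξ smin s ρ :=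
        fun ρ => wt_nonneg ht0 ht1 ht0 hξ0.le hξ1 hs1 hcond s ρ
      set E₁ : ℝ := k * ((ℓ + 1) * (2 ^ (L + 2) * (1 / 2) ^ (r + 1))) with hE₁
      have hE₁0 : 0 ≤ E₁ := by positivity
      have hterm : ∀ ρ : Idx (Fin N) cs → St c, wt (G := Idx (Fin N) cs) t t ξ smin s ρ *
          Gm t cs (fun h => (ρ h).1)
            (fun q z => An ℓ m (k + 1) b F q (XX (G := Idx (Fin N) cs) s ρ z))
            (fun g v => Win D g v bx steps a0)
          ≤ ∑ e ∈ Finset.range (ℓ + 1), wt (G := Idx (Fin N) cs) t t ξ smin s ρ *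
              (if bad e ρ then (1 : ℝ) else 0) +
            wt (G := Idx (Fin N) cs) t t ξ smin s ρ * (E₁ + E0) +
            wt (G := Idx (Fin N) cs) t t ξ smin s ρ *
              Psi t ξ smin steps cs (fun h => (ρ h).1) := by
        intro ρ
        rw [← Finset.mul_sum, ← mul_add, ← mul_add]
        apply mul_le_mul_of_nonneg_left _ (hnn ρ)
        have h4 : 0 ≤ Psi (N := N) t ξ smin steps cs (fun h : Idx (Fin N) cs => (ρ h).1) :=
          Psi_nonneg ht0 ht1 hξ0.le hξ1 hs1 hcond cs _
        have hnn2 : ∀ e ∈ Finset.range (ℓ + 1), (0 : ℝ) ≤ (if bad e ρ then (1 : ℝ) else 0) := by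
          intro e _
          split_ifs <;> norm_num
        by_cases hb : ∃ e ≤ ℓ, bad e ρ
        · obtain ⟨e, he, hb⟩ := hb
          have h3 := Gm_le_one ht0.le ht1.le cs (fun h => (ρ h).1)
            (fun q z => An ℓ m (k + 1) b F q (XX (G := Idx (Fin N) cs) s ρ z))
            (fun g v => Win D g v bx steps a0)
          have h5 := Finset.single_le_sum hnn2 (Finset.mem_range.2 (Nat.lt_succ_of_le he))
          rw [if_pos hb] at h5
          linarith
        · have hgood : ∀ e ≤ ℓ, ∀ y : List Bool, y.length ≤ L → ∀ b,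
            DTr r (fun z : Idx (Fin N) cs → Bool => QF (m e) (F e) 1 b y (XX s ρ z)) := by
            intro e he
            by_contra hcon
            exact hb ⟨e, he, hcon⟩
          have h5 := ih cs hlen (fun h => (ρ h).1)
            (fun e y' z => QF (m e) (F e) 1 (bot b k) y' (XX (G := Idx (Fin N) cs) s ρ z))
            (fun e he y' hy' => hgood e he y' hy' _)
            (fun e y' z => congrArg (QF (m e) (F e) 1 (bot b k) y') (XX_val s ρ z)) b
          have h6 := Finset.sum_nonneg hnn2
          have h7 : Gm t cs (fun h => (ρ h).1)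
            (fun q z => An ℓ m (k + 1) b F q (XX (G := Idx (Fin N) cs) s ρ z))
            (fun g v => Win D g v bx steps a0) = Gm t cs (fun h => (ρ h).1)
            (An ℓ m k b (fun e y' z => QF (m e) (F e) 1 (bot b k) y'
              (XX (G := Idx (Fin N) cs) s ρ z))) (fun g v => Win D g v bx steps a0) := by
            congr 1
            funext q z
            unfold An
            by_cases hq : q.length ≤ ℓ
            · rw [if_pos hq, if_pos hq, QF_peel,
                QF_comp (m q.length) (fun y' => QF (m q.length) (F q.length) 1 (bot b k) y')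
                  (XX (G := Idx (Fin N) cs) s ρ)]
            · rw [if_neg hq, if_neg hq]
          rw [h7]
          linarith
      refine (Finset.sum_le_sum fun ρ _ => hterm ρ).trans ?_
      rw [Finset.sum_add_distrib, Finset.sum_add_distrib, ← Finset.sum_mul,
        wt_sum ht0 ht1 ht0 hs1 s, one_mul, Finset.sum_comm]
      have h6 : ∑ e ∈ Finset.range (ℓ + 1), ∑ ρ : Idx (Fin N) cs → St c,
          wt (G := Idx (Fin N) cs) t t ξ smin s ρ * (if bad e ρ then (1 : ℝ) else 0) ≤
          (ℓ + 1) * (2 ^ (ℓ + (k + 1) * (2 * mm + 1) + 2) * (1 / 2) ^ (r + 1)) := by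
        refine (Finset.sum_le_sum fun e he => hsw e (Nat.lt_succ_iff.1
          (Finset.mem_range.1 he))).trans ?_
        rw [Finset.sum_const, Finset.card_range, nsmul_eq_mul]
        push_cast
        apply mul_le_mul_of_nonneg_left _ (by positivity)
        apply mul_le_mul_of_nonneg_right _ (by positivity)
        apply pow_le_pow_right₀ (by norm_num)
        rw [hℓ]; omega
      have h7 : E₁ ≤ k * ((ℓ + 1) * (2 ^ (ℓ + (k + 1) * (2 * mm + 1) + 2) *
          (1 / 2) ^ (r + 1))) := by
        rw [hE₁]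
        apply mul_le_mul_of_nonneg_left _ (by positivity)
        apply mul_le_mul_of_nonneg_left _ (by positivity)
        apply mul_le_mul_of_nonneg_right _ (by positivity)
        apply pow_le_pow_right₀ (by norm_num)
        rw [hℓ]; omega
      push_cast
      have h9 : ((k : ℝ) + 1) * ((ℓ + 1) * (2 ^ (ℓ + (k + 1) * (2 * mm + 1) + 2) *
          (1 / 2) ^ (r + 1))) =
        k * ((ℓ + 1) * (2 ^ (ℓ + (k + 1) * (2 * mm + 1) + 2) * (1 / 2) ^ (r + 1))) +
          (ℓ + 1) * (2 ^ (ℓ + (k + 1) * (2 * mm + 1) + 2) * (1 / 2) ^ (r + 1)) := by ring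
      rw [h9]
      linarith

end Pool.Agent.V8H57.CX
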