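import Pool.Agent.H591R3.PHG.LangSig
import Pool.Agent.H591R3.PHG.LangTr
import Pool.Agent.H591R3.PHG.Sig
import Pool.Agent.V8H57.CX.Defs

/-! The hard optimization problem is in the level `Π_i` of the polynomial hierarchy relative to the
oracle. -/

set_option autoImplicit false

namespace Pool.Agent.V8H57.CX

open Finset H568R2 Pool.Agent.H676 Pool.Agent.H620R2.Gauge Pool.Agent.NPC
  Pool.Agent.H591R3 Pool.Agent.H591R3.PHG Pool.Agent.H591R3.PHG.LangSig Pool.Agent.H622R2

/-- the value of the formula coded by the string `s` -/
def valA (i : ℕ) (A : Oracle) (s : List Bool) : Bool :=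
  ((parse i s).1.foldr up (bitv A (unpair (parse i s).2).1.length)) s

/-- the string for the pair `u` of an instance and a candidate -/
def cand (u : List Bool) : List Bool := (unpair u).1 ++ fit (unpair u).1 (unpair u).2

/-- the feasible solutions -/
def Cr (c i : ℕ) (A : Oracle) (x y : ℕ) : Prop :=
  y = 0 ∨ (c * y.bits.length ≤ x.bits.length ∧ valA i A (x.bits ++ fit x.bits y.bits) = true)

/-- the rest of the parameters and the address, from the nested string with `j` quantified
strings -/
def dc : ℕ → List Bool → List Bool × List Bool
  | 0, x => (cand x, cand x)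
  | j + 1, u => ((unpair (dc j (unpair u).2).1).2,
      (dc j (unpair u).2).2 ++ fit (unpair (dc j (unpair u).2).1).1 (unpair u).1)

theorem poly_cand : Poly cand :=
  Poly.append (Poly.fst poly_unpair) (poly_fit (Poly.fst poly_unpair) (Poly.snd poly_unpair))

theorem poly_dc (j : ℕ) : Poly (dc j) := by
  have h1 : Poly (fun z : List Bool => (unpair z).1) := Poly.fst poly_unpair
  have h2 : Poly (fun z : List Bool => (unpair z).2) := Poly.snd poly_unpair
  induction j with
  | zero => exact (Poly.pair poly_cand poly_cand).congr (fun z => rfl)
  | succ j ih =>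
    have h3 : Poly (fun z : List Bool => dc j (unpair z).2) := ih.comp h2
    have h4 : Poly (fun z : List Bool => unpair (dc j (unpair z).2).1) :=
      poly_unpair.comp (Poly.fst h3)
    exact (Poly.pair (Poly.snd h4)
      (Poly.append (Poly.snd h3) (poly_fit (Poly.fst h4) h1))).congr (fun z => rfl)

/-- the questions to the oracle -/
def Qc (k : ℕ) (y : List Bool) : List (List Bool) :=
  (List.range (unpair (dc k y).1).1.length).map (fun l => (dc k y).2 ++
    (List.replicate (min l (unpair (dc k y).1).1.length) ()).map (fun _ => true))

theorem poly_Qc (k : ℕ) : Poly (Qc k) := by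
  have h1 : Poly (fun y : List Bool => (unpair (dc k y).1).1) :=
    Poly.fst (poly_unpair.comp (Poly.fst (poly_dc k)))
  have h2 : UPoly (fun y : List Bool => (unpair (dc k y).1).1.length) := UPoly.length h1
  have h3 : UPoly (fun p : List Bool × ℕ => min p.2 (unpair (dc k p.1).1).1.length) :=
    UPoly.of_le (Poly.min (Poly.snd Poly.id) (Poly.length (h1.comp (Poly.fst Poly.id))))
      (h2.comp (Poly.fst Poly.id)) (fun p => min_le_right _ _)
  have h4 : Poly (fun p : List Bool × ℕ => (dc k p.1).2 ++
      (List.replicate (min p.2 (unpair (dc k p.1).1).1.length) ()).map (fun _ => true)) :=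
    Poly.append (Poly.snd ((poly_dc k).comp (Poly.fst Poly.id)))
      (NPC.Poly.map (F := fun _ _ => true) h3 (NPC.Poly.const true))
  exact NPC.Poly.map (F := fun y l => (dc k y).2 ++
    (List.replicate (min l (unpair (dc k y).1).1.length) ()).map (fun _ => true)) h2.range h4

/-- the verifier without the simple cases -/
def Ver1 (k : ℕ) (e : Bool) (A : Oracle) (y : List Bool) : List Bool :=
  [decide (((Qc k y).map A).all (fun b => !b) = e)]

/-- the verifier -/
def Vc (c k : ℕ) (e : Bool) (A : Oracle) (y : List Bool) : List Bool :=
  if (unpair (strip k y)).2.isEmpty = true then [true]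
  else if c * (unpair (strip k y)).2.length ≤ (unpair (strip k y)).1.length then Ver1 k e A y
  else []

theorem isFP_Vc (c k : ℕ) (e : Bool) (A : Oracle) : IsFP A (Vc c k e A) := by
  have h0 : Poly (fun p : List Bool × List Bool => unpair (strip k p.1)) :=
    poly_unpair.comp ((poly_strip k).comp (Poly.fst Poly.id))
  have h1 : Poly (fun p : List Bool × List Bool => p.2.all (fun b => !b)) :=
    Poly.all (p := fun _ b => !b) (Poly.snd Poly.id) (Poly.not (Poly.snd Poly.id))
  have h2 : Poly (fun p : List Bool × List Bool => [decide (p.2.all (fun b => !b) = e)]) :=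
    Poly.cons (Poly.decide_eq h1 (NPC.Poly.const e)) (NPC.Poly.const [])
  have h3 : Poly (fun p : List Bool × List Bool =>
      if c * (unpair (strip k p.1)).2.length ≤ (unpair (strip k p.1)).1.length then
        [decide (p.2.all (fun b => !b) = e)] else []) :=
    Poly.ite (Poly.decide_le (Poly.mul (NPC.Poly.const c) (Poly.length (Poly.snd h0)))
      (Poly.length (Poly.fst h0))) h2 (NPC.Poly.const [])
  have h4 : Poly (fun p : List Bool × List Bool =>
      if (unpair (strip k p.1)).2.isEmpty = true then [true] else
      if c * (unpair (strip k p.1)).2.length ≤ (unpair (strip k p.1)).1.length then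
        [decide (p.2.all (fun b => !b) = e)] else []) :=
    Poly.ite (Poly.decide_bool (Poly.isEmpty (Poly.snd h0))) (NPC.Poly.const [true]) h3
  exact IsFP.tt (A := A) (H := fun p : List Bool × List Bool =>
      if (unpair (strip k p.1)).2.isEmpty = true then [true] else
      if c * (unpair (strip k p.1)).2.length ≤ (unpair (strip k p.1)).1.length then
        [decide (p.2.all (fun b => !b) = e)] else []) (poly_Qc k) h4

theorem Ver1_iff (k : ℕ) (e : Bool) (A : Oracle) (y : List Bool) :
    Ver1 k e A y = [true] ↔ bitv A (unpair (dc k y).1).1.length (dc k y).2 = e := by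
  have h1 : ((Qc k y).map A).all (fun b => !b) =
      bitv A (unpair (dc k y).1).1.length (dc k y).2 := by
    rw [Bool.eq_iff_iff]
    unfold bitv Qc
    rw [List.all_eq_true, decide_eq_true_iff]
    simp only [List.mem_map, List.mem_range, Bool.not_eq_true', List.map_replicate]
    constructor
    · intro h l hl
      have h2 := h (A ((dc k y).2 ++ List.replicate l true)) ⟨_, ⟨l, hl, rfl⟩, by
        rw [Nat.min_eq_left hl.le]⟩
      exact h2
    · rintro h b ⟨_, ⟨l, hl, rfl⟩, rfl⟩
      rw [Nat.min_eq_left hl.le]
      exact h l hl
  unfold Ver1
  rw [h1]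
  simp

theorem quant_iff1 (A : Oracle) (K m : ℕ) (e : Bool) : ∀ (j i : ℕ) (b : Bool)
    (u r q : List Bool), i + j = K → dc i u = (r, q) → r.length ≤ m → bot b j = !e →
      (Quant m (Ver1 K e A) j b u ↔
        ((parse j r).1.foldr up (bitv A (unpair (parse j r).2).1.length)) q = !b) := by
  intro j
  induction j with
  | zero =>
    intro i b u r q hi hd hm hb
    have hi : i = K := by omega
    subst hi
    have hb' : (!b) = e := by
      rw [bot] at hb
      rw [hb, Bool.not_not]
    have h1 := Ver1_iff i e A u
    rw [hd] at h1
    rw [hb']
    cases b <;> exact h1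
  | succ j ih =>
    intro i b u r q hi hd hm hb
    have hl := length_unpair r
    have key : ∀ (w : List Bool), (Quant m (Ver1 K e A) j (!b) (pairBits w u) ↔
        ((parse j (unpair r).2).1.foldr up
          (bitv A (unpair (parse j (unpair r).2).2).1.length))
            (q ++ fit (unpair r).1 w) = b) := by
      intro w
      have h1 := ih (i + 1) (!b) (pairBits w u) (unpair r).2 (q ++ fit (unpair r).1 w)
        (by omega) (by simp only [dc, unpair_pairBits, hd]) (by omega) hb
      rw [Bool.not_not] at h1
      exact h1
    have hfold : ((parse (j + 1) r).1.foldr up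
        (bitv A (unpair (parse (j + 1) r).2).1.length)) q =
        decide (∀ i < 2 ^ (unpair r).1.length, ((parse j (unpair r).2).1.foldr up
          (bitv A (unpair (parse j (unpair r).2).2).1.length))
            (q ++ bitsOf (unpair r).1.length i) = false) := rfl
    rw [hfold]
    cases b with
    | true =>
      have key' : ∀ w : List Bool, (Quant m (Ver1 K e A) j false (pairBits w u) ↔ _) := key
      rw [Quant]
      simp only [key']
      rw [exists_fit (fun w => ((parse j (unpair r).2).1.foldr up
          (bitv A (unpair (parse j (unpair r).2).2).1.length)) (q ++ w) = true) (unpair r).1 rfl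
          (by omega)]
      simp
    | false =>
      have key' : ∀ w : List Bool, (Quant m (Ver1 K e A) j true (pairBits w u) ↔ _) := key
      rw [Quant]
      simp only [key']
      rw [forall_fit (fun w => ((parse j (unpair r).2).1.foldr up
          (bitv A (unpair (parse j (unpair r).2).2).1.length)) (q ++ w) = false) (unpair r).1 rfl
          (by omega)]
      simp

theorem quant_congr1 {m k : ℕ} {V V' : List Bool → List Bool} {u0 : List Bool}
    (h : ∀ y, strip k y = u0 → (V y = [true] ↔ V' y = [true])) : ∀ (j i : ℕ) (b : Bool)
    (u : List Bool), i + j = k → strip i u = u0 → (Quant m V j b u ↔ Quant m V' j b u) := by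
  intro j
  induction j with
  | zero =>
    intro i b u hi hu
    have hi : i = k := by omega
    subst hi
    cases b <;> exact h u hu
  | succ j ih =>
    intro i b u hi hu
    have key : ∀ (w : List Bool) (b : Bool), (Quant m V j b (pairBits w u) ↔
        Quant m V' j b (pairBits w u)) := by
      intro w b
      apply ih (i + 1) b (pairBits w u) (by omega)
      simp only [strip, unpair_pairBits]
      exact hu
    cases b with
    | true => simp only [Quant, key]
    | false => simp only [Quant, key]

theorem length_cand (u : List Bool) : (cand u).length ≤ 2 * (unpair u).1.length := by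
  unfold cand
  rw [List.length_append, length_fit]
  omega

theorem InPi_Cr (c i : ℕ) (A : Oracle) : InPi A i (Cr c i A) := by
  refine ⟨Vc c i (!(bot false i)) A, Polynomial.X, isFP_Vc c i _ A, fun x y => ?_⟩
  rw [Polynomial.eval_X]
  set u := pairBits x.bits y.bits with hu
  have hu1 : unpair u = (x.bits, y.bits) := unpair_pairBits _ _
  have hlen : (cand u).length ≤ u.length := by
    have h1 := length_cand u
    rw [hu1] at h1
    have h2 : u.length = 2 * x.bits.length + 1 + y.bits.length := length_pairBits _ _
    simp only at h1
    omega
  by_cases hy : y = 0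
  · have h1 : Cr c i A x y := Or.inl hy
    have h2 := quant_congr1 (m := u.length) (V := Vc c i (!(bot false i)) A)
      (V' := fun y => (fun _ => [true]) (strip i y)) (k := i) (u0 := u) (by
      intro z hz
      unfold Vc
      rw [hz, hu1, hy]
      simp) i 0 false u (by omega) rfl
    rw [h2, quant_strip u.length (fun _ => [true]) i i 0 false u (by omega)]
    simp [h1]
  · have hyb : y.bits ≠ [] := by
      intro h
      apply hy
      have h3 := congrArg List.length h
      rw [Nat.size_eq_bits_len, List.length_nil, Nat.size_eq_zero] at h3
      exact h3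
    by_cases hc : c * y.bits.length ≤ x.bits.length
    · have h1 : Cr c i A x y ↔ valA i A (cand u) = true := by
        unfold Cr cand
        rw [hu1]
        constructor
        · rintro (h | h)
          · exact absurd h hy
          · exact h.2
        · intro h
          exact Or.inr ⟨hc, h⟩
      have h2 := quant_congr1 (m := u.length) (V := Vc c i (!(bot false i)) A)
        (V' := Ver1 i (!(bot false i)) A) (k := i) (u0 := u) (by
        intro z hz
        unfold Vc
        rw [hz, hu1, if_neg (by simpa using hyb), if_pos hc]) i 0 false u (by omega) rfl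
      rw [h1, h2, quant_iff1 A i u.length _ i 0 false u (cand u) (cand u) (by omega) rfl hlen
        (by rw [Bool.not_not])]
      rfl
    · have h1 : ¬ Cr c i A x y := by
        rintro (h | h)
        · exact hy h
        · exact hc h.1
      have h2 := quant_congr1 (m := u.length) (V := Vc c i (!(bot false i)) A)
        (V' := fun y => (fun _ => []) (strip i y)) (k := i) (u0 := u) (by
        intro z hz
        unfold Vc
        rw [hz, hu1, if_neg (by simpa using hyb), if_neg hc]) i 0 false u (by omega) rfl
      rw [h2, quant_strip u.length (fun _ => []) i i 0 false u (by omega)]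
      simp [h1]

theorem isOpt_Cr (c i : ℕ) (hc : 2 ≤ c) (A : Oracle) : IsOptProblem A i (Cr c i A) id := by
  refine ⟨InPi_Cr c i A, fun x => Or.inl rfl, ?_, ⟨fun x => x, polyTime_id, fun y => rfl⟩⟩
  rintro x y (h | ⟨h, _⟩)
  · omega
  · by_contra hcon
    push Not at hcon
    have h1 : x.bits.length ≤ y.bits.length := by
      rw [Nat.size_eq_bits_len, Nat.size_eq_bits_len]
      exact Nat.size_le_size hcon.le
    have h2 : 1 ≤ y.bits.length := by
      rw [Nat.size_eq_bits_len]
      exact Nat.size_pos.2 (by omega)
    nlinarith

end Pool.Agent.V8H57.CX
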