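import Pool.Agent.V8H57.CX.Root
import Pool.Agent.V8H57.CX.Pi
import Pool.Agent.H620R2.Gauge.Blk
import Pool.Agent.H620R2.GaugeR.R8

/-! From counterexample computations relative to an oracle to the game. -/

set_option autoImplicit false

namespace Pool.Agent.V8H57.CX

open Finset H568R2 Pool.Agent.H676 Pool.Agent.H620R2.Gauge Pool.Agent.NPC
  Pool.Agent.H591R3 Pool.Agent.H591R3.PHG Pool.Agent.H591R3.PHG.LangSig Pool.Agent.H622R2

section adv
variable {N x : ℕ} {C : ℕ → ℕ → Prop} {v : Fin N → Bool}

theorem opt_iff (h : ∀ y, C x y ↔ feas v y) (hle : ∀ y, C x y → y ≤ x) (y : ℕ) :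
    Opt C id x y ↔ IsBest v y := by
  unfold Opt Bm IsBest
  simp only [id]
  constructor
  · intro h1
    refine ⟨(h y).1 (h1 0 (Nat.zero_le _)).1, fun y' hy' => ?_⟩
    have h2 := (h y').2 hy'
    by_contra hlt
    push Not at hlt
    exact (h1 y' (hle y' h2)).2 hlt h2
  · rintro ⟨h1, h2⟩ z hz
    refine ⟨(h y).2 h1, fun hlt hC => ?_⟩
    have := h2 z ((h z).1 hC)
    omega

theorem ans_correct (h : ∀ y, C x y ↔ feas v y) (hle : ∀ y, C x y → y ≤ x) :
    Adversary.Correct C id x (fun _ y => ans v y) := by
  classical
  intro a y
  show match ans v y with
    | none => Opt C id x y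
    | some z => z ≤ x ∧ ¬ Bm C id x y z
  unfold ans
  by_cases h1 : IsBest v y
  · rw [if_pos h1]
    exact (opt_iff h hle y).2 h1
  · rw [if_neg h1]
    by_cases h2 : feas v y
    · rw [if_pos h2]
      have hne : {y' | feas v y' ∧ y < y'}.Nonempty := by
        by_contra hcon
        rw [Set.not_nonempty_iff_eq_empty] at hcon
        apply h1
        refine ⟨h2, fun y' hy' => ?_⟩
        by_contra hlt
        push Not at hlt
        have : y' ∈ {y' | feas v y' ∧ y < y'} := ⟨hy', hlt⟩
        rw [hcon] at this
        exact this
      have h3 := Nat.sInf_mem hne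
      have h4 := (h _).2 h3.1
      refine ⟨hle _ h4, ?_⟩
      intro hB
      exact hB.2 h3.2 h4
    · rw [if_neg h2]
      refine ⟨Nat.zero_le _, ?_⟩
      intro hB
      exact h2 ((h y).1 hB.1)

open Classical in
theorem run_eq (M : CAlg) (S : Set (List Bool)) (av : ℕ → Option ℕ) (x : ℕ) : ∀ (n : ℕ)
    (a : List Bool), M.run S (fun _ y => av y) x n a =
      play M.D (fun q => decide (q ∈ S)) av x.bits n a := by
  intro n
  induction n with
  | zero => intro a; rfl
  | succ n ih =>
    intro a
    unfold CAlg.run play
    rcases M.D (pairBits x.bits a) with _ | ⟨b, l⟩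
    · rfl
    · cases b with
      | false => exact ih _
      | true =>
        rcases l with _ | ⟨b, w⟩
        · rfl
        · cases b with
          | false => exact ih _
          | true => rfl

theorem play_congr {D : List Bool → List Bool} {g g' : List Bool → Bool} {av : ℕ → Option ℕ}
    {bx : List Bool} {L ℓ B : ℕ} (hD : ∀ a, a.length ≤ L → (D (pairBits bx a)).length ≤ ℓ)
    (hav : ∀ y, (ansCode (av y)).length ≤ B + 1) (hg : ∀ q, q.length ≤ ℓ → g q = g' q) :
    ∀ (n : ℕ) (a : List Bool), a.length + n * (2 * B + 3) ≤ L →
      play D g av bx n a = play D g' av bx n a := by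
  intro n
  induction n with
  | zero => intro a _; rfl
  | succ n ih =>
    intro a ha
    have e1 : (n + 1) * (2 * B + 3) = n * (2 * B + 3) + (2 * B + 3) := by ring
    have hD1 := hD a (by omega)
    unfold play
    rcases hq : D (pairBits bx a) with _ | ⟨b, l⟩
    · rfl
    · rw [hq, List.length_cons] at hD1
      cases b with
      | false =>
        show play D g av bx n (pairBits [g l] a) = play D g' av bx n (pairBits [g' l] a)
        rw [hg l (by omega)]
        apply ih
        rw [length_pairBits]
        simp only [List.length_cons, List.length_nil]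
        omega
      | true =>
        rcases l with _ | ⟨b, w⟩
        · rfl
        · cases b with
          | false =>
            show play D g av bx n (pairBits (ansCode (av (num w))) a) =
              play D g' av bx n (pairBits (ansCode (av (num w))) a)
            apply ih
            rw [length_pairBits]
            have := hav (num w)
            omega
          | true => rfl

end adv

section strings

theorem num_bits (n : ℕ) : num n.bits = n := by
  induction n using Nat.binaryRec' with
  | zero => simp [num]
  | bit b n h ih =>
    rw [Nat.bits_append_bit _ _ h]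
    show Nat.bit b (num n.bits) = _
    rw [ih]

theorem num_append_false (l : List Bool) (k : ℕ) : num (l ++ List.replicate k false) = num l := by
  unfold num
  rw [List.foldr_append]
  congr 1
  induction k with
  | zero => rfl
  | succ k ih =>
    rw [List.replicate_succ, List.foldr_cons, ih]
    rfl

theorem bits_num (l : List Bool) : (num (l ++ [true])).bits = l ++ [true] ∧
    num (l ++ [true]) ≠ 0 := by
  induction l with
  | nil => simp [num]
  | cons b l ih =>
    have e : num (b :: l ++ [true]) = Nat.bit b (num (l ++ [true])) := rfl
    rw [e, Nat.bits_append_bit _ _ (fun h => absurd h ih.2), ih.1]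
    refine ⟨rfl, ?_⟩
    rw [Nat.bit_ne_zero_iff]
    intro h
    exact absurd h ih.2

theorem fit_of_le {u w : List Bool} (h : w.length ≤ u.length) :
    fit u w = w ++ List.replicate (u.length - w.length) false := by
  apply List.ext_getElem
  · rw [length_fit, List.length_append, List.length_replicate]
    omega
  · intro i h1 h2
    simp only [fit, List.getElem_map, List.getElem_zip]
    by_cases hi : i < w.length
    · rw [List.getElem_append_left hi, List.getElem_append_left hi]
    · rw [List.getElem_append_right (by omega), List.getElem_append_right (by omega)]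
      simp

theorem fit_inj {u w w' : List Bool} (h : w.length ≤ u.length) (h' : w'.length ≤ u.length)
    (he : fit u w = fit u w') : num w = num w' := by
  rw [fit_of_le h, fit_of_le h'] at he
  have := congrArg num he
  rwa [num_append_false, num_append_false] at this

theorem pairBits_append (a b c : List Bool) : pairBits a b ++ c = pairBits a (b ++ c) := by
  simp [pairBits]

theorem enc_append_right (as : List ℕ) (w : ℕ) (z z' : List Bool) :
    enc as w z ++ z' = enc as w (z ++ z') := by
  induction as using List.reverseRecOn with
  | nil => exact pairBits_append _ _ _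
  | append_singleton as a ih =>
    rw [LangTrAux.enc_append, LangTrAux.enc_append, pairBits_append, ih]

theorem valA_enc {N : ℕ} (A : Oracle) (as : List ℕ) (w : ℕ) (z : Fin N → List Bool) (j : Fin N) :
    valA as.length A (enc as w (z j)) =
      Tr (w :: pw as) (leaves (fun j => enc as w (z j)) as w A) j := by
  have h1 : Tr (w :: pw as) (leaves (fun j => enc as w (z j)) as w A) j =
      (as.foldl (fun v a => up a v) (bitv A w)) (enc as w (z j)) := by
    rw [← LangTrAux.Tr_addr (fun j => enc as w (z j)) as (bitv A w) j]
    show Tr (pw as) (fun g : Idx (Fin N) (pw as) => decide (∀ i : Fin w,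
      A (addr (fun j => enc as w (z j)) as g ++ List.replicate i.val true) = false)) j = _
    congr 1
    funext g
    unfold bitv
    congr 1
    apply propext
    constructor
    · intro h i hi
      exact h ⟨i, hi⟩
    · intro h i
      exact h i.val i.isLt
  rw [h1]
  unfold valA
  rw [LangTrAux.parse_enc as w (z j)]
  dsimp only
  rw [unpair_pairBits]
  dsimp only
  rw [List.length_replicate, List.foldr_reverse]

end strings

end Pool.Agent.V8H57.CX
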