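import Pool.Agent.V8H57.CX.Lev

/-! The level of the random bits, and the law at the roots. -/

set_option autoImplicit false

namespace Pool.Agent.V8H57.CX

open Finset H568R2 Pool.Agent.H676 Pool.Agent.H620R2.Gauge Pool.Agent.NPC
  Pool.Agent.H591R3 Pool.Agent.H591R3.PHG

theorem lev_leaf {N n u : ℕ} (hn : 5 ≤ n) (hu : 8 * u ≤ n) (D : List Bool → List Bool)
    (bx a0 : List Bool) (steps ℓ mm : ℕ) (m : ℕ → ℕ) (hm : ∀ c ≤ ℓ, m c ≤ mm)
    (k : ℕ) (cs : List ℕ) (hcs : cs.length = k)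
    (F : ℕ → List Bool → (Idx (Fin N) (8 * n :: cs) → Bool) → Bool)
    (hF : ∀ c ≤ ℓ, ∀ y : List Bool, y.length ≤ ℓ + k * (2 * mm + 1) →
      DTr (2 ^ (2 * u)) (F c y)) (b : Bool) :
    Gm (1 / 2) (8 * n :: cs) (fun _ => none) (An ℓ m k b F)
        (fun g v => Win D g v bx steps a0) ≤
        k * ((ℓ + 1) * (2 ^ (ℓ + k * (2 * mm + 1) + 2) * (1 / 2) ^ (2 ^ (2 * u) + 1))) +
        (steps * ((2 ^ (2 * u) : ℕ) + 1) + 1) * (1 / 2 ^ (4 * n)) +
        Ex (nxt (1 / 2) (1 / 2 ^ (4 * n)) 0 (8 * n) (8 * n) law0)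
          (Psi (N := N) (1 / 2 ^ (4 * n)) (1 / 2 ^ (2 * n)) (8 * n * 2 ^ (4 * n)) steps cs) := by
  classical
  set t : ℝ := 1 / 2 ^ (4 * n) with ht
  have ht0 : 0 < t := by positivity
  have hpow : (1 - 1 / 2 : ℝ) ^ (8 * n) / t ≤ 1 := by
    rw [ht, div_le_one (by positivity)]
    rw [show (1 - 1 / 2 : ℝ) = 1 / 2 by norm_num, one_div_pow]
    apply one_div_le_one_div_of_le (by positivity)
    exact pow_le_pow_right₀ (by norm_num) (by omega)
  have hs1 : 1 ≤ 8 * n := by omega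
  have hcond : (1 - 0) * (1 - 1 / 2 : ℝ) ^ (8 * n) / t + 0 * (1 - 1 / 2 : ℝ) ^ (8 * n) ≤ 1 := by
    rw [zero_mul, add_zero, sub_zero, one_mul]
    exact hpow
  set s0 : Idx (Fin N) (8 * n :: cs) → Option Bool := fun _ => none with hs0
  rw [Gm_stage (t := 1 / 2) (t' := t) (ξ := 0) (smin := 8 * n) (by norm_num) (by norm_num) ht0 hs1
    cs s0]
  set E : ℝ := k * ((ℓ + 1) * (2 ^ (ℓ + k * (2 * mm + 1) + 2) * (1 / 2) ^ (2 ^ (2 * u) + 1))) +
      (steps * ((2 ^ (2 * u) : ℕ) + 1) + 1) * t with hE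
  set P := Psi (N := N) t (1 / 2 ^ (2 * n)) (8 * n * 2 ^ (4 * n)) steps cs with hP
  have hterm : ∀ ρ : Idx (Fin N) cs → St (8 * n),
      wt (G := Idx (Fin N) cs) (1 / 2) t 0 (8 * n) s0 ρ *
        Gm t cs (fun h => (ρ h).1)
          (fun q z => An ℓ m k b F q (XX (G := Idx (Fin N) cs) s0 ρ z))
          (fun g v => Win D g v bx steps a0) ≤
      wt (G := Idx (Fin N) cs) (1 / 2) t 0 (8 * n) s0 ρ * E +
        wt (G := Idx (Fin N) cs) (1 / 2) t 0 (8 * n) s0 ρ * P (fun h => (ρ h).1) := by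
    intro ρ
    rw [← mul_add]
    apply mul_le_mul_of_nonneg_left _
      (wt_nonneg (by norm_num) (by norm_num) ht0 le_rfl zero_le_one hs1 hcond s0 ρ)
    have h5 := lev_ind hn hu D bx a0 steps ℓ mm m hm k cs hcs (fun h => (ρ h).1)
      (fun e y' z => F e y' (XX (G := Idx (Fin N) cs) s0 ρ z))
      (fun e he y' hy' => DTr_XX (G := Idx (Fin N) cs) s0 ρ (hF e he y' hy'))
      (fun e y' z => congrArg (F e y') (XX_val s0 ρ z)) b
    refine le_trans (le_of_eq ?_) h5
    congr 1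
    funext q z
    unfold An
    by_cases hq : q.length ≤ ℓ
    · rw [if_pos hq, if_pos hq, QF_comp (m q.length) (F q.length)
        (XX (G := Idx (Fin N) cs) s0 ρ)]
    · rw [if_neg hq, if_neg hq]
  refine (Finset.sum_le_sum fun ρ _ => hterm ρ).trans ?_
  rw [Finset.sum_add_distrib, ← Finset.sum_mul,
    wt_sum (by norm_num) (by norm_num) ht0 hs1 s0, one_mul]
  have h8 := law_stage (G := Idx (Fin N) cs) (c := 8 * n) (smin := 8 * n) (t := 1 / 2) (t' := t)
    (ξ := 0) law0 P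
  rw [Ex_law0] at h8
  rw [← h8]
  exact le_of_eq rfl

/-- the sizes of the levels, and the law at the roots -/
theorem law_roots {n : ℕ} (hn : 5 ≤ n) : ∀ (k : ℕ) (law : Option Bool → ℝ), Inv n law →
    ∃ (as : List ℕ) (law' : Option Bool → ℝ), as.length = k ∧ (∀ a ∈ as, a ≤ 64 * n) ∧
      Inv n law' ∧ ∀ (N steps : ℕ),
        Ex law (Psi (N := N) (1 / 2 ^ (4 * n)) (1 / 2 ^ (2 * n)) (8 * n * 2 ^ (4 * n)) steps
          (pw as)) =
        Ex law' (Psi (N := N) (1 / 2 ^ (4 * n)) (1 / 2 ^ (2 * n)) (8 * n * 2 ^ (4 * n)) steps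
          []) := by
  classical
  intro k
  induction k with
  | zero =>
    intro law hinv
    exact ⟨[], law, rfl, by simp, hinv, fun N steps => rfl⟩
  | succ k ih =>
    intro law hinv
    have hn5 : (5 : ℝ) ≤ n := by exact_mod_cast hn
    obtain ⟨a, ha, h1, h2⟩ := exists_pow hn (B := 16 * n) hinv.lo hinv.hi (by linarith) le_rfl
    have hc2 : (((2 ^ a : ℕ)) : ℝ) = 2 ^ a := by push_cast; rfl
    have hinv' := inv_step (c := 2 ^ a) hn hinv (by rw [hc2]; exact h1)
      (by rw [hc2]; linarith)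
    obtain ⟨as, law', hlen, has, hI, hX⟩ := ih _ hinv'
    refine ⟨a :: as, law', by simp [hlen], ?_, hI, ?_⟩
    · intro a' ha'
      rcases List.mem_cons.1 ha' with rfl | h
      · exact ha
      · exact has a' h
    · intro N steps
      rw [← hX N steps]
      rw [← law_stage (G := Idx (Fin N) (pw as)) (c := 2 ^ a) (smin := 8 * n * 2 ^ (4 * n))
        (t := 1 / 2 ^ (4 * n)) (t' := 1 / 2 ^ (4 * n)) (ξ := 1 / 2 ^ (2 * n)) law]
      rfl

theorem Ex_coord {I A : Type} [Fintype I] [DecidableEq I] [Fintype A] [DecidableEq A]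
    {w : A → ℝ} (hw : ∑ a, w a = 1) (i : I) (f : A → ℝ) :
    Ex w (fun ω : I → A => f (ω i)) = ∑ a, w a * f a := by
  rw [Ex_resample hw _ i]
  simp only [Function.update_self]
  exact Ex_const hw _

theorem Ex_prod_coord {I A : Type} [Fintype I] [DecidableEq I] [Fintype A] [DecidableEq A]
    (w : A → ℝ) (f : A → ℝ) :
    Ex w (fun ω : I → A => ∏ i, f (ω i)) = (∑ a, w a * f a) ^ Fintype.card I := by
  unfold Ex
  simp only [← Finset.prod_mul_distrib]
  have h := Finset.prod_univ_sum (fun _ : I => (univ : Finset A)) (fun _ a => w a * f a)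
  rw [Finset.prod_const, Finset.card_univ, Fintype.piFinset_univ] at h
  exact h.symm

open Classical in
theorem ex_some {N : ℕ} {law : Option Bool → ℝ} (h0 : ∀ v, 0 ≤ law v) (h1 : ∑ v, law v = 1) :
    Ex law (fun s : Fin N → Option Bool => if ∃ j, s j = some true then (1 : ℝ) else 0) ≤
      N * law (some true) := by
  have h2 : Ex law (fun s : Fin N → Option Bool => if ∃ j, s j = some true then (1 : ℝ) else 0) ≤
      Ex law (fun s : Fin N → Option Bool => ∑ j ∈ (univ : Finset (Fin N)),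
        if s j = some true then (1 : ℝ) else 0) := by
    apply Ex_mono h0
    intro s
    have hnn : ∀ j ∈ (univ : Finset (Fin N)), (0 : ℝ) ≤ if s j = some true then (1 : ℝ) else 0 := by
      intro j _
      split_ifs <;> norm_num
    split_ifs with h
    · obtain ⟨j, hj⟩ := h
      have h3 := Finset.single_le_sum hnn (Finset.mem_univ j)
      rw [if_pos hj] at h3
      exact h3
    · exact Finset.sum_nonneg hnn
  refine h2.trans (le_of_eq ?_)
  rw [Ex_sum]
  have h3 : ∀ j : Fin N, Ex law (fun s : Fin N → Option Bool =>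
      if s j = some true then (1 : ℝ) else 0) = law (some true) := by
    intro j
    rw [Ex_coord h1 j (fun a => if a = some true then (1 : ℝ) else 0)]
    simp
  rw [Finset.sum_congr rfl fun j _ => h3 j, Finset.sum_const, Finset.card_univ, Fintype.card_fin,
    nsmul_eq_mul]

open Classical in
theorem ex_phi {N : ℕ} {law : Option Bool → ℝ} (h0 : ∀ v, 0 ≤ law v) (h1 : ∑ v, law v = 1)
    {t : ℝ} (ht0 : 0 ≤ t) (ht1 : t ≤ 1) (steps : ℕ) :
    Ex law (fun s : Fin N → Option Bool => Phi t s 0 steps) ≤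
      2 ^ steps * (1 - (law none * t + law (some true)) / 2) ^ N := by
  have h2 : Ex law (fun s : Fin N → Option Bool => Phi t s 0 steps) ≤
      Ex law (fun s : Fin N → Option Bool => 2 ^ steps * Ex (ber t) (fun z : Fin N → Bool =>
        ∏ j, if (s j).getD (z j) = true then (1 / 2 : ℝ) else 1)) := by
    apply Ex_mono h0
    intro s
    rw [← Ex_smul]
    unfold Phi EE
    apply Ex_mono (ber_nn ht0 ht1)
    intro z
    have h3 : ∏ j, (if (s j).getD (z j) = true then (1 / 2 : ℝ) else 1) =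
        (1 / 2) ^ (above (PHG.val s z) 0).card := by
      rw [Finset.prod_ite, Finset.prod_const, Finset.prod_const_one, mul_one]
      congr 2
      ext j
      simp [above, PHG.val]
    rw [h3]
    show (if (above (PHG.val s z) 0).card ≤ steps then (1 : ℝ) else 0) ≤
      2 ^ steps * (1 / 2) ^ (above (PHG.val s z) 0).card
    split_ifs with h
    · have h4 : (1 / 2 : ℝ) ^ steps ≤ (1 / 2) ^ (above (PHG.val s z) 0).card :=
        pow_le_pow_of_le_one (by norm_num) (by norm_num) h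
      have h5 : (2 : ℝ) ^ steps * (1 / 2) ^ steps = 1 := by
        rw [← mul_pow]; norm_num
      have h6 := mul_le_mul_of_nonneg_left h4 (by positivity : (0 : ℝ) ≤ 2 ^ steps)
      linarith
    · positivity
  refine h2.trans (le_of_eq ?_)
  rw [Ex_smul]
  congr 1
  rw [← Ex_prod law (ber t) (fun c : Fin N → Option Bool × Bool =>
    ∏ j, if (c j).1.getD (c j).2 = true then (1 / 2 : ℝ) else 1)]
  rw [Ex_prod_coord _ (fun c : Option Bool × Bool =>
    if c.1.getD c.2 = true then (1 / 2 : ℝ) else 1), Fintype.card_fin]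
  congr 1
  rw [Fintype.sum_prod_type, Fintype.sum_option, Fintype.sum_bool]
  rw [Fintype.sum_option, Fintype.sum_bool] at h1
  simp only [Fintype.sum_bool, ber, Option.getD_none, Option.getD_some]
  simp only [if_true, Bool.false_eq_true, if_false]
  linarith

/-- the number of the roots -/
theorem exists_root {n : ℕ} (hn : 5 ≤ n) {p : ℝ} (h1 : Real.exp (-(36 * n)) ≤ p)
    (h2 : p ≤ 1 / 2 ^ (8 * n)) :
    ∃ a : ℕ, a ≤ 64 * n ∧ 2 ^ n ≤ (2 : ℝ) ^ a * p ∧ (2 : ℝ) ^ a * p < 2 * 2 ^ n := by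
  have hp : 0 < p := lt_of_lt_of_le (Real.exp_pos _) h1
  have hex : ∃ a : ℕ, 2 ^ n ≤ (2 : ℝ) ^ a * p := by
    obtain ⟨a, ha⟩ := pow_unbounded_of_one_lt (2 ^ n / p) (by norm_num : (1 : ℝ) < 2)
    exact ⟨a, by rw [div_lt_iff₀ hp] at ha; exact ha.le⟩
  classical
  have hs := Nat.find_spec hex
  have hm := fun m hm => Nat.find_min hex (m := m) hm
  set a := Nat.find hex with ha
  have hlt : p < 2 ^ n := by
    have h8 : (1 : ℝ) / 2 ^ (8 * n) < 1 := by
      rw [div_lt_one (by positivity)]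
      exact one_lt_pow₀ (by norm_num) (by omega)
    have h9 : (1 : ℝ) ≤ 2 ^ n := one_le_pow₀ (by norm_num)
    linarith
  have ha1 : 1 ≤ a := by
    rcases Nat.eq_zero_or_pos a with h0 | h0
    · rw [h0] at hs
      simp only [pow_zero, one_mul] at hs
      exact absurd hs (not_le.mpr hlt)
    · exact h0
  obtain ⟨b, hb⟩ : ∃ b, a = b + 1 := ⟨a - 1, by omega⟩
  have hb2 : (2 : ℝ) ^ b * p < 2 ^ n := by
    have := hm b (by omega)
    exact not_le.mp this
  have h2a : (2 : ℝ) ^ a * p < 2 * 2 ^ n := by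
    rw [hb, pow_succ]; nlinarith
  refine ⟨a, ?_, hs, h2a⟩
  by_contra hcon
  have hcon2 : 64 * n ≤ a := by omega
  have h64 : (2 : ℝ) ^ (64 * n) ≤ 2 ^ a := pow_le_pow_right₀ (by norm_num) hcon2
  have hexp : Real.exp (-(36 * n)) = 1 / Real.exp (36 * n) := by
    rw [Real.exp_neg]; simp
  have hp2 : 1 / (2 : ℝ) ^ (52 * n) ≤ p := by
    calc 1 / (2 : ℝ) ^ (52 * n) ≤ 1 / Real.exp (36 * n) :=
          one_div_le_one_div_of_le (Real.exp_pos _) (exp36_le n)
      _ = Real.exp (-(36 * n)) := hexp.symm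
      _ ≤ p := h1
  have h12 : (2 : ℝ) ^ (12 * n) ≤ 2 ^ a * p := by
    calc (2 : ℝ) ^ (12 * n) = 2 ^ (64 * n) * (1 / 2 ^ (52 * n)) := by
          rw [mul_one_div, eq_div_iff (by positivity), ← pow_add]
          congr 1
          ring
      _ ≤ 2 ^ a * p := by
          apply mul_le_mul h64 hp2 (by positivity) (by positivity)
  have hn2 : (2 : ℝ) * 2 ^ n ≤ 2 ^ (12 * n) := by
    calc (2 : ℝ) * 2 ^ n = 2 ^ (n + 1) := by rw [pow_succ]; ring
      _ ≤ 2 ^ (12 * n) := pow_le_pow_right₀ (by norm_num) (by omega)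
  linarith

theorem Ex_nil {N : ℕ} (law : Option Bool → ℝ) (G : (Fin N → Option Bool) → ℝ) :
    Ex law (I := Idx (Fin N) []) G = Ex law (I := Fin N) G := rfl

open Classical in
theorem Psi_nil {N : ℕ} (t ξ : ℝ) (smin n : ℕ) :
    Psi (N := N) t ξ smin n [] = fun s : Fin N → Option Bool =>
      (if ∃ j, s j = some true then (1 : ℝ) else 0) + Phi t s 0 n := by
  funext s
  show (if ∃ j : Fin N, s j = some true then (1 : ℝ) else 0) + Phi (N := N) t s 0 n = _
  congr

/-- the error of the computation -/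
noncomputable def err (k n u steps ℓ mm : ℕ) : ℝ :=
  k * ((ℓ + 1) * (2 ^ (ℓ + k * (2 * mm + 1) + 2) * (1 / 2) ^ (2 ^ (2 * u) + 1))) +
    (steps * ((2 ^ (2 * u) : ℕ) + 1) + 1) * (1 / 2 ^ (4 * n)) +
    (4 / 2 ^ n + 2 ^ steps * Real.exp (-((2 ^ n - 1) / 2)))

/-- The computation finds the best root with small probability. -/
theorem lev_all {n : ℕ} (hn : 5 ≤ n) (k : ℕ) : ∃ (as : List ℕ) (ar : ℕ), as.length = k ∧
    (∀ a ∈ as, a ≤ 64 * n) ∧ ar ≤ 64 * n ∧ n ≤ ar ∧
    ∀ (u : ℕ) (_ : 8 * u ≤ n) (D : List Bool → List Bool)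
    (bx a0 : List Bool) (steps ℓ mm : ℕ) (m : ℕ → ℕ) (_ : ∀ c ≤ ℓ, m c ≤ mm)
    (F : ℕ → List Bool → (Idx (Fin (2 ^ ar - 1)) (8 * n :: pw as) → Bool) → Bool)
    (_ : ∀ c ≤ ℓ, ∀ y : List Bool, y.length ≤ ℓ + k * (2 * mm + 1) →
      DTr (2 ^ (2 * u)) (F c y)) (b : Bool),
    Gm (1 / 2) (8 * n :: pw as) (fun _ => none) (An ℓ m k b F)
        (fun g v => Win D g v bx steps a0) ≤ err k n u steps ℓ mm := by
  classical
  obtain ⟨as, law', hlen, has, hI, hX⟩ := law_roots hn k _ (inv_start hn)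
  obtain ⟨ar, har, hr1, hr2⟩ := exists_root hn hI.lo hI.hi
  set p : ℝ := law' none / 2 ^ (4 * n) + law' (some true) with hp
  have hp0 : 0 < p := lt_of_lt_of_le (Real.exp_pos _) hI.lo
  have hp1 : p ≤ 1 := by
    refine hI.hi.trans ?_
    rw [div_le_one (by positivity)]
    exact one_le_pow₀ (by norm_num)
  have hnar : n ≤ ar := by
    by_contra hcon
    push Not at hcon
    have h3 : (2 : ℝ) ^ ar < 2 ^ n := pow_lt_pow_right₀ (by norm_num) hcon
    have h4 : (2 : ℝ) ^ ar * p ≤ 2 ^ ar * 1 := mul_le_mul_of_nonneg_left hp1 (by positivity)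
    linarith
  refine ⟨as, ar, hlen, has, har, hnar, ?_⟩
  intro u hu D bx a0 steps ℓ mm m hm F hF b
  have h1 := lev_leaf hn hu D bx a0 steps ℓ mm m hm k (pw as) (by simp [pw, hlen]) F hF b
  refine h1.trans ?_
  unfold err
  gcongr
  rw [hX]
  set N : ℕ := 2 ^ ar - 1 with hN
  have hN1 : ((N : ℕ) : ℝ) = 2 ^ ar - 1 := by
    have : 1 ≤ 2 ^ ar := Nat.one_le_two_pow
    rw [hN]
    push_cast [Nat.cast_sub this]
    rfl
  have ht0 : (0 : ℝ) ≤ 1 / 2 ^ (4 * n) := by positivity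
  have ht1 : (1 : ℝ) / 2 ^ (4 * n) ≤ 1 := by
    rw [div_le_one (by positivity)]
    exact one_le_pow₀ (by norm_num)
  have h2 : Ex law' (Psi (N := N) (1 / 2 ^ (4 * n)) (1 / 2 ^ (2 * n)) (8 * n * 2 ^ (4 * n)) steps
      []) = Ex law' (fun s : Fin N → Option Bool => if ∃ j, s j = some true then (1 : ℝ) else 0) +
        Ex law' (fun s : Fin N → Option Bool => Phi (1 / 2 ^ (4 * n)) s 0 steps) := by
    rw [← Ex_add, Psi_nil, Ex_nil]
  rw [h2]
  have h3 := ex_some (N := N) hI.nonneg hI.sum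
  have h4 := ex_phi (N := N) hI.nonneg hI.sum ht0 ht1 steps
  have h5 : law' none * (1 / 2 ^ (4 * n)) + law' (some true) = p := by
    rw [hp, mul_one_div]
  rw [h5] at h4
  have h6 : (N : ℝ) * law' (some true) ≤ 4 / 2 ^ n := by
    have h7 := hI.rare
    rw [← hp] at h7
    have h8 : (N : ℝ) ≤ 2 ^ ar := by rw [hN1]; linarith
    calc (N : ℝ) * law' (some true) ≤ 2 ^ ar * (2 * (1 / 2 ^ (2 * n)) * p) :=
          mul_le_mul h8 h7 (hI.nonneg _) (by positivity)
      _ = 2 * (1 / 2 ^ (2 * n)) * (2 ^ ar * p) := by ring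
      _ ≤ 2 * (1 / 2 ^ (2 * n)) * (2 * 2 ^ n) :=
          mul_le_mul_of_nonneg_left hr2.le (by positivity)
      _ = 4 / 2 ^ n := by
          have : (2 : ℝ) ^ (2 * n) = 2 ^ n * 2 ^ n := by rw [← pow_add]; congr 1; ring
          rw [this]
          field_simp
          norm_num
  have h7 : (1 - p / 2) ^ N ≤ Real.exp (-((2 ^ n - 1) / 2)) := by
    have h8 : 1 - p / 2 ≤ Real.exp (-(p / 2)) := by
      have := Real.add_one_le_exp (-(p / 2))
      linarith
    calc (1 - p / 2) ^ N ≤ (Real.exp (-(p / 2))) ^ N :=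
          pow_le_pow_left₀ (by linarith) h8 N
      _ = Real.exp (N * (-(p / 2))) := by rw [← Real.exp_nat_mul]
      _ ≤ Real.exp (-((2 ^ n - 1) / 2)) := by
          apply Real.exp_le_exp.mpr
          rw [hN1]
          nlinarith
  have h8 := mul_le_mul_of_nonneg_left h7 (by positivity : (0 : ℝ) ≤ 2 ^ steps)
  linarith

end Pool.Agent.V8H57.CX
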